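import Mathlib

set_option autoImplicit false

namespace Pool.Agent.V11307.Lin

open Finset

/-- `b_k(n) = binom(n,k) binom(n+k,k)` -/
def b (n k : ℕ) : ℤ := (n.choose k : ℤ) * ((n+k).choose k : ℤ)

lemma succ_choose_eq (m l : ℕ) : ((l:ℤ)+1) * (m.choose (l+1) : ℤ) = ((m:ℤ) - l) * (m.choose l : ℤ) := by
  rcases le_or_gt l m with h | h
  · have := Nat.choose_succ_right_eq m l
    have h2 : (((m.choose (l+1) * (l+1) : ℕ)) : ℤ) = ((m.choose l * (m-l) : ℕ) : ℤ) := by rw [this]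
    push_cast [Nat.cast_sub h] at h2
    linear_combination h2
  · rw [Nat.choose_eq_zero_of_lt (by omega : m < l+1), Nat.choose_eq_zero_of_lt h]; simp

lemma choose_add_eq (m l : ℕ) : ((l:ℤ)+1) * ((m+l+1).choose (l+1) : ℤ) = ((m:ℤ) + l + 1) * ((m+l).choose l : ℤ) := by
  have := Nat.add_one_mul_choose_eq (m+l) l
  have h2 : (((m+l+1) * (m+l).choose l : ℕ) : ℤ) = (((m+l+1).choose (l+1) * (l+1) : ℕ) : ℤ) := by
    rw [← this]
  push_cast at h2
  linear_combination -h2

lemma top_succ (m l : ℕ) : ((m:ℤ) + 1 - l) * ((m+1).choose l : ℤ) = ((m:ℤ)+1) * (m.choose l : ℤ) := by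
  rcases le_or_gt l (m+1) with h | h
  · have h1 := succ_choose_eq (m+1) l
    rcases l with _ | l
    · simp
    · have h2 := Nat.add_one_mul_choose_eq m l
      have h3 := succ_choose_eq m l
      have h4 : (((m+1) * m.choose l : ℕ) : ℤ) = (((m+1).choose (l+1) * (l+1) : ℕ) : ℤ) := by rw [h2]
      push_cast at h4 ⊢
      have hl : ((l:ℤ)+1) ≠ 0 := by positivity
      apply mul_left_cancel₀ hl
      linear_combination (-(m:ℤ) + l) * h4 - ((m:ℤ)+1) * h3
  · rw [Nat.choose_eq_zero_of_lt h, Nat.choose_eq_zero_of_lt (by omega : m < l)]; simp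

lemma b_rec (n l : ℕ) : ((l:ℤ)+1)^2 * b n (l+1) = ((n:ℤ)*(n+1) - l*(l+1)) * b n l := by
  unfold b
  have h1 := succ_choose_eq n l
  have h2 := choose_add_eq n l
  rw [show n + (l+1) = n+l+1 by ring]
  linear_combination (((l:ℤ)+1) * ((n+l+1).choose (l+1) : ℤ)) * h1 + ((n:ℤ)-l) * (n.choose l : ℤ) * h2

lemma b_zero_of_lt {n k : ℕ} (h : n < k) : b n k = 0 := by
  unfold b; rw [Nat.choose_eq_zero_of_lt h]; simp

lemma b_zero (n : ℕ) : b n 0 = 1 := by simp [b]

/-- linearization coefficients -/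
def C (i j l : ℕ) : ℤ := (l.choose i : ℤ) * (l.choose j : ℤ) * ((i+j).choose l : ℤ)

lemma C_zero_of_lt {i j l : ℕ} (h : i + j < l) : C i j l = 0 := by
  unfold C; rw [Nat.choose_eq_zero_of_lt h]; simp

lemma C_step (i j l : ℕ) : ((l:ℤ)+1)^2 * C i j l + (((l:ℤ)+1)*((l:ℤ)+2) - j*(j+1)) * C i j (l+1)
    = ((j:ℤ)+1)^2 * C i (j+1) (l+1) := by
  unfold C
  have hA := top_succ l i
  have hB := top_succ l j
  have hB' := succ_choose_eq (l+1) j
  have hc := succ_choose_eq (i+j) l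
  have hcc : (((i+(j+1)).choose (l+1) : ℕ):ℤ) = ((i+j).choose l : ℤ) + ((i+j).choose (l+1) : ℤ) := by
    rw [show i+(j+1) = (i+j)+1 by ring, Nat.choose_succ_succ']; push_cast; ring
  rw [hcc]
  push_cast at hB' hc ⊢
  generalize ((l.choose i : ℕ):ℤ) = A at *
  generalize (((l+1).choose i : ℕ):ℤ) = A' at *
  generalize ((l.choose j : ℕ):ℤ) = B at *
  generalize (((l+1).choose j : ℕ):ℤ) = B' at *
  generalize (((l+1).choose (j+1) : ℕ):ℤ) = B'' at *
  generalize (((i+j).choose l : ℕ):ℤ) = c at *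
  generalize (((i+j).choose (l+1) : ℕ):ℤ) = c' at *
  linear_combination (-((l:ℤ)+1)*B*c) * hA + (-((l:ℤ)+1-i)*A'*c) * hB
    - (((j:ℤ)+1)*A'*(c+c')) * hB' + ((l:ℤ)+1-j)*A'*B' * hc

/-- **linearization**: `b_i b_j = ∑ C(i,j;l) b_l` -/
theorem b_mul (n i j : ℕ) : b n i * b n j = ∑ l ∈ range (i+j+1), C i j l * b n l := by
  induction j with
  | zero =>
    rw [b_zero, mul_one, sum_eq_single i]
    · simp [C]
    · intro l hl hne
      rw [mem_range] at hl
      unfold C
      rw [Nat.choose_eq_zero_of_lt (show l < i by omega)]; simp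
    · intro h; exact absurd (mem_range.mpr (by omega)) h
  | succ j ih =>
    have hj : ((j:ℤ)+1)^2 ≠ 0 := by positivity
    apply mul_left_cancel₀ hj
    have h1 : ((j:ℤ)+1)^2 * (b n i * b n (j+1)) = ((n:ℤ)*(n+1) - j*(j+1)) * (b n i * b n j) := by
      linear_combination (b n i) * b_rec n j
    rw [h1, ih, mul_sum, mul_sum]
    have h2 : ∑ l ∈ range (i+j+1), ((n:ℤ)*(n+1) - j*(j+1)) * (C i j l * b n l)
        = ∑ l ∈ range (i+j+1), ((l:ℤ)+1)^2 * C i j l * b n (l+1)
          + ∑ l ∈ range (i+j+1), ((l:ℤ)*(l+1) - j*(j+1)) * C i j l * b n l := by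
      rw [← sum_add_distrib]
      refine sum_congr rfl (fun l _ => ?_)
      linear_combination (- C i j l) * b_rec n l
    rw [h2, show i + (j+1) + 1 = (i+j+1)+1 by ring, sum_range_succ' _ (i+j+1)]
    have h3 : ∑ l ∈ range (i+j+1), ((l:ℤ)*(l+1) - j*(j+1)) * C i j l * b n l
        = ∑ l ∈ range (i+j+1), (((l:ℤ)+1)*(l+2) - j*(j+1)) * C i j (l+1) * b n (l+1)
          + (0 - (j:ℤ)*(j+1)) * C i j 0 * b n 0 := by
      have := sum_range_succ' (fun l : ℕ => ((l:ℤ)*(l+1) - j*(j+1)) * C i j l * b n l) (i+j+1)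
      rw [sum_range_succ, C_zero_of_lt (show i+j < i+j+1 by omega)] at this
      rw [mul_zero, zero_mul, add_zero] at this
      rw [this]
      congr 1
    rw [h3]
    have h4 : (0 - (j:ℤ)*(j+1)) * C i j 0 * b n 0 = 0 := by
      rcases j with _ | j
      · simp
      · unfold C; simp
    have h5 : ((j:ℤ)+1)^2 * (C i (j+1) 0 * b n 0) = 0 := by
      unfold C; simp
    rw [h4, h5, add_zero, add_zero, ← sum_add_distrib]
    refine sum_congr rfl (fun l _ => ?_)
    linear_combination (b n (l+1)) * C_step i j l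

theorem b_mul' (n i j K : ℕ) (hK : i + j < K) : b n i * b n j = ∑ l ∈ range K, C i j l * b n l := by
  rw [b_mul]
  refine sum_subset (range_mono (by omega)) (fun l _ hl => ?_)
  rw [mem_range, not_lt] at hl
  rw [C_zero_of_lt (by omega)]; simp

/-- alternating sum of `(2k+1) b_l(k)` -/
theorem sum_alt (M l : ℕ) : ∑ k ∈ range (M+1), (-1:ℤ)^k * (2*k+1) * b k l
    = (-1)^M * (M+1) * (M.choose l : ℤ) * ((M+1+l).choose l : ℤ) := by
  induction M with
  | zero =>
    rcases l with _ | l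
    · simp [b]
    · simp [b]
  | succ M ih =>
    rw [sum_range_succ, ih]
    have h1 := top_succ M l
    have h2 := top_succ (M+1+l) l
    unfold b
    rw [show M + 1 + 1 + l = M+1+l+1 by ring]
    push_cast at h2 ⊢
    rw [pow_succ]
    generalize ((M.choose l : ℕ):ℤ) = A at *
    generalize (((M+1).choose l : ℕ):ℤ) = A' at *
    generalize (((M+1+l).choose l : ℕ):ℤ) = B at *
    generalize (((M+1+l+1).choose l : ℕ):ℤ) = B' at *
    linear_combination (-(-1:ℤ)^M * B) * h1 + ((-1:ℤ)^M * A') * h2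

/-- plain sum of `(2k+1) b_l(k)` -/
theorem sum_plain (n l : ℕ) : ∑ k ∈ range n, (2*(k:ℤ)+1) * b k l
    = n * (n.choose (l+1) : ℤ) * ((n+l).choose l : ℤ) := by
  induction n with
  | zero => simp
  | succ n ih =>
    rw [sum_range_succ, ih]
    have h1 := top_succ n (l+1)
    have h1' := succ_choose_eq n l
    have h2 := top_succ (n+l) l
    have h3 := succ_choose_eq (n+1) l
    have h4 : (((n+1).choose (l+1) : ℕ):ℤ) = (n.choose l : ℤ) + (n.choose (l+1) : ℤ) := by
      rw [Nat.choose_succ_succ']; push_cast; ring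
    unfold b
    rw [show n + 1 + l = n+l+1 by ring, h4]
    push_cast at h1 h2 h3 ⊢
    generalize ((n.choose l : ℕ):ℤ) = A at *
    generalize ((n.choose (l+1) : ℕ):ℤ) = A' at *
    generalize (((n+l).choose l : ℕ):ℤ) = B at *
    generalize (((n+l+1).choose l : ℕ):ℤ) = B' at *
    linear_combination (-(A+A'))*h2 - B*h1'

end Pool.Agent.V11307.Lin
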