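import Mathlib
import Pool.Agent.V11307.Lin.Prod

set_option autoImplicit false

namespace Pool.Agent.V11307.Lin

open Finset

theorem b_mul_lt (n i j K : ℕ) (hn : n < K) : b n i * b n j = ∑ l ∈ range K, C i j l * b n l := by
  rw [b_mul' n i j (max K (i+j+1)) (by omega)]
  symm
  refine sum_subset (range_mono (by omega)) (fun l _ hl => ?_)
  rw [mem_range, not_lt] at hl
  rw [b_zero_of_lt (by omega)]; simp

lemma pascal_sum (m : ℕ) (h : ℕ → ℤ) :
    ∑ i ∈ range (m+2), ((m+1).choose i : ℤ) * h i = ∑ i ∈ range (m+1), (m.choose i : ℤ) * (h i + h (i+1)) := by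
  have := Finset.sum_choose_succ_mul (R := ℤ) (fun i _ => h i) m
  rw [this, ← sum_add_distrib]
  exact sum_congr rfl (fun i _ => by ring)

/-- Vandermonde with weights -/
lemma vandermonde (m m' : ℕ) (g : ℕ → ℤ) :
    ∑ i ∈ range (m+1), ∑ j ∈ range (m'+1), (m.choose i : ℤ) * (m'.choose j : ℤ) * g (i+j)
      = ∑ s ∈ range (m+m'+1), ((m+m').choose s : ℤ) * g s := by
  induction m generalizing g with
  | zero => simp
  | succ m ih =>
    have h1 : ∑ i ∈ range (m+1+1), ∑ j ∈ range (m'+1), ((m+1).choose i : ℤ) * (m'.choose j : ℤ) * g (i+j)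
        = ∑ i ∈ range (m+2), ((m+1).choose i : ℤ) * ∑ j ∈ range (m'+1), (m'.choose j : ℤ) * g (i+j) := by
      refine sum_congr rfl (fun i _ => ?_)
      rw [mul_sum]
      exact sum_congr rfl (fun j _ => by ring)
    rw [h1, pascal_sum m (fun i => ∑ j ∈ range (m'+1), (m'.choose j : ℤ) * g (i+j))]
    rw [show m + 1 + m' + 1 = (m+m')+2 by ring, show m + 1 + m' = (m+m')+1 by ring, pascal_sum,
      ← ih (fun s => g s + g (s+1))]
    refine sum_congr rfl (fun i _ => ?_)
    rw [← sum_add_distrib, mul_sum]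
    refine sum_congr rfl (fun j _ => ?_)
    rw [show i + 1 + j = i + j + 1 by ring]; ring

/-- the central binomial coefficient as an integer -/
def cb (i : ℕ) : ℤ := ((2*i).choose i : ℤ)

lemma quad_sum (l : ℕ) (x : ℤ) :
    ∑ i ∈ range (l+1), ∑ j ∈ range (l+1), C i j l * x^(i+j) = cb l * (x*(x+1))^l := by
  have h1 : ∑ i ∈ range (l+1), ∑ j ∈ range (l+1), C i j l * x^(i+j)
      = ∑ i ∈ range (l+1), ∑ j ∈ range (l+1), (l.choose i : ℤ) * (l.choose j : ℤ) * (((i+j).choose l : ℤ) * x^(i+j)) := by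
    refine sum_congr rfl (fun i _ => sum_congr rfl (fun j _ => ?_))
    unfold C; ring
  rw [h1, vandermonde l l (fun s => (s.choose l : ℤ) * x^s)]
  rw [show l + l + 1 = l + (l+1) by ring, sum_range_add]
  have h2 : ∑ s ∈ range l, (((l+l).choose s : ℕ):ℤ) * (((s.choose l : ℕ):ℤ) * x^s) = 0 := by
    refine sum_eq_zero (fun s hs => ?_)
    rw [mem_range] at hs
    rw [Nat.choose_eq_zero_of_lt hs]; simp
  rw [h2, zero_add]
  have h3 : ∀ t ∈ range (l+1), (((l+l).choose (l+t) : ℕ):ℤ) * ((((l+t).choose l : ℕ):ℤ) * x^(l+t))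
      = cb l * x^l * (x^t * 1^(l-t) * (l.choose t : ℤ)) := by
    intro t ht
    rw [mem_range] at ht
    have := Nat.choose_mul (n := l+l) (k := l+t) (s := l) (by omega)
    rw [show l + l - l = l by omega, show l + t - l = t by omega] at this
    have h4 : ((((l+l).choose (l+t) * (l+t).choose l : ℕ)):ℤ) = (((l+l).choose l * l.choose t : ℕ):ℤ) := by rw [this]
    push_cast at h4
    unfold cb
    rw [two_mul, pow_add, one_pow]
    linear_combination (x^l*x^t) * h4
  rw [sum_congr rfl h3, ← mul_sum, ← add_pow]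
  rw [mul_pow]; ring

/-- Delannoy polynomials -/
def Dl (n : ℕ) (x : ℤ) : ℤ := ∑ k ∈ range (n+1), (n.choose k : ℤ) * ((n+k).choose k : ℤ) * x^k

lemma Dl_eq (n K : ℕ) (x : ℤ) (h : n < K) : Dl n x = ∑ k ∈ range K, b n k * x^k := by
  unfold Dl
  refine sum_subset (range_mono (by omega)) (fun l _ hl => ?_)
  rw [mem_range, not_lt] at hl
  rw [Nat.choose_eq_zero_of_lt (by omega)]; simp

theorem D_sq (n K : ℕ) (x : ℤ) (h : n < K) : Dl n x ^ 2 = ∑ l ∈ range K, b n l * (cb l * (x*(x+1))^l) := by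
  rw [sq, Dl_eq n K x h, sum_mul_sum]
  have h1 : ∑ i ∈ range K, ∑ j ∈ range K, b n i * x^i * (b n j * x^j)
      = ∑ i ∈ range K, ∑ j ∈ range K, ∑ l ∈ range K, b n l * (C i j l * x^(i+j)) := by
    refine sum_congr rfl (fun i _ => sum_congr rfl (fun j _ => ?_))
    have : b n i * x^i * (b n j * x^j) = (b n i * b n j) * x^(i+j) := by rw [pow_add]; ring
    rw [this, b_mul_lt n i j K h, sum_mul]
    exact sum_congr rfl (fun l _ => by ring)
  rw [h1]
  have h2 : ∑ i ∈ range K, ∑ j ∈ range K, ∑ l ∈ range K, b n l * (C i j l * x^(i+j))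
      = ∑ l ∈ range K, b n l * ∑ i ∈ range K, ∑ j ∈ range K, (C i j l * x^(i+j)) := by
    rw [sum_congr rfl (fun i _ => sum_comm), sum_comm]
    refine sum_congr rfl (fun l _ => ?_)
    rw [mul_sum]
    exact sum_congr rfl (fun i _ => by rw [mul_sum])
  rw [h2]
  refine sum_congr rfl (fun l hl => ?_)
  rw [mem_range] at hl
  rw [← quad_sum]
  congr 1
  have hz : ∀ i j, (l < i ∨ l < j) → C i j l * x^(i+j) = 0 := by
    rintro i j (h | h)
    · unfold C; rw [Nat.choose_eq_zero_of_lt h]; simp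
    · unfold C; rw [Nat.choose_eq_zero_of_lt h]; simp
  symm
  rw [← sum_subset (range_mono (show l+1 ≤ K by omega)) (fun i _ hi => ?_)]
  · refine sum_congr rfl (fun i _ => ?_)
    refine sum_subset (range_mono (show l+1 ≤ K by omega)) (fun j _ hj => ?_)
    rw [mem_range, not_lt] at hj
    exact hz i j (Or.inr (by omega))
  · rw [mem_range, not_lt] at hi
    exact sum_eq_zero (fun j _ => hz i j (Or.inl (by omega)))

/-- `∑_l (-1)^l C(i,j;l) = (-1)^{i+j} binom(i+j,i)` -/
lemma alt_inner (i : ℕ) : ∀ j m : ℕ, ∑ t ∈ range (j+1), (j.choose t : ℤ) * ((-1)^t * ((i+t).choose (j+m) : ℤ))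
    = (-1)^j * (i.choose m : ℤ) := by
  intro j
  induction j with
  | zero => intro m; simp
  | succ j ih =>
    intro m
    rw [show j+1+1 = j+2 by ring, pascal_sum j (fun t => (-1)^t * ((i+t).choose (j+1+m) : ℤ))]
    rw [pow_succ, mul_neg_one, neg_mul, ← ih m, ← sum_neg_distrib]
    refine sum_congr rfl (fun t _ => ?_)
    rw [show i + (t+1) = (i+t)+1 by ring, show j+1+m = (j+m)+1 by ring, Nat.choose_succ_succ' (i+t)]
    push_cast
    ring

theorem alt_C (i j : ℕ) : ∑ l ∈ range (i+j+1), (-1:ℤ)^l * C i j l = (-1)^(i+j) * ((i+j).choose i : ℤ) := by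
  rw [show i + j + 1 = i + (j+1) by ring, sum_range_add]
  have h2 : ∑ s ∈ range i, (-1:ℤ)^s * C i j s = 0 := by
    refine sum_eq_zero (fun s hs => ?_)
    rw [mem_range] at hs
    unfold C
    rw [Nat.choose_eq_zero_of_lt hs]; simp
  rw [h2, zero_add]
  have h3 : ∀ t ∈ range (j+1), (-1:ℤ)^(i+t) * C i j (i+t)
      = (-1)^i * ((i+j).choose i : ℤ) * ((j.choose t : ℤ) * ((-1)^t * ((i+t).choose (j+0) : ℤ))) := by
    intro t ht
    rw [mem_range] at ht
    have := Nat.choose_mul (n := i+j) (k := i+t) (s := i) (by omega)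
    rw [show i + j - i = j by omega, show i + t - i = t by omega] at this
    have h4 : ((((i+j).choose (i+t) * (i+t).choose i : ℕ)):ℤ) = (((i+j).choose i * j.choose t : ℕ):ℤ) := by rw [this]
    push_cast at h4
    unfold C
    rw [pow_add, add_zero]
    linear_combination ((-1:ℤ)^i*(-1)^t*((i+t).choose j : ℤ)) * h4
  rw [sum_congr rfl h3, ← mul_sum, alt_inner i j 0, pow_add]
  simp
  ring

end Pool.Agent.V11307.Lin
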