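import Mathlib

set_option autoImplicit false

namespace Pool.Agent.V11307.Lin.Ser

open PowerSeries Finset

/-! ### the Euler operator -/

/-- `θ = t d/dt` on power series -/
noncomputable def th (f : ℤ⟦X⟧) : ℤ⟦X⟧ := PowerSeries.mk (fun n => (n:ℤ) * coeff n f)

lemma coeff_th (n : ℕ) (f : ℤ⟦X⟧) : coeff n (th f) = (n:ℤ) * coeff n f := by rw [th, coeff_mk]

lemma th_add (f g : ℤ⟦X⟧) : th (f+g) = th f + th g := by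
  ext n; simp only [coeff_th, map_add]; ring

lemma th_sub (f g : ℤ⟦X⟧) : th (f-g) = th f - th g := by
  ext n; simp only [coeff_th, map_sub]; ring

lemma th_neg (f : ℤ⟦X⟧) : th (-f) = - th f := by
  ext n; simp only [coeff_th, map_neg]; ring

lemma th_mul (f g : ℤ⟦X⟧) : th (f*g) = th f * g + f * th g := by
  ext n
  rw [map_add, coeff_th, coeff_mul, coeff_mul, coeff_mul, mul_sum, ← sum_add_distrib]
  refine sum_congr rfl (fun ij hij => ?_)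
  rw [coeff_th, coeff_th]
  have : ij.1 + ij.2 = n := mem_antidiagonal.mp hij
  rw [← this]; push_cast; ring

lemma th_X : th (X : ℤ⟦X⟧) = X := by
  ext n; rw [coeff_th, coeff_X]; split_ifs with h
  · subst h; simp
  · simp

lemma th_one : th (1 : ℤ⟦X⟧) = 0 := by
  ext n; rw [coeff_th, coeff_one]; split_ifs with h
  · subst h; simp
  · simp

lemma th_zero : th (0 : ℤ⟦X⟧) = 0 := by
  ext n; rw [coeff_th]; simp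

lemma th_nat (k : ℕ) : th ((k : ℕ) : ℤ⟦X⟧) = 0 := by
  induction k with
  | zero => simpa using th_zero
  | succ k ih => push_cast; rw [th_add, ih, th_one]; simp

lemma th_int (k : ℤ) : th ((k : ℤ) : ℤ⟦X⟧) = 0 := by
  obtain ⟨n, rfl | rfl⟩ := k.eq_nat_or_neg
  · simpa using th_nat n
  · push_cast; rw [th_neg, th_nat]; simp

lemma th_ofNat (n : ℕ) [n.AtLeastTwo] : th (OfNat.ofNat n : ℤ⟦X⟧) = 0 := by
  have := th_nat (OfNat.ofNat n)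
  rwa [Nat.cast_ofNat] at this

lemma th_sum {ι : Type*} (s : Finset ι) (f : ι → ℤ⟦X⟧) : th (∑ i ∈ s, f i) = ∑ i ∈ s, th (f i) := by
  classical
  induction s using Finset.induction_on with
  | empty => simpa using th_zero
  | insert a s ha ih => rw [sum_insert ha, sum_insert ha, th_add, ih]

lemma th_sq (f : ℤ⟦X⟧) : th (f^2) = 2 * f * th f := by
  rw [sq, th_mul]; ring

/-- if `θ f = c f` up to a factor, then the same for powers -/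
lemma th_pow_of {f c d : ℤ⟦X⟧} (h : d * th f = c * f) (m : ℕ) : d * th (f^m) = (m:ℤ⟦X⟧) * c * f^m := by
  induction m with
  | zero => simp [th_one]
  | succ m ih =>
    rw [pow_succ, th_mul]
    push_cast
    linear_combination f * ih + f^m * h

/-! ### the polynomials `N_k` -/

/-- `s = t + t^2` -/
noncomputable def s : ℤ⟦X⟧ := X + X^2

lemma th_s : (1+X) * th s = (1+2*X) * s := by
  unfold s
  rw [th_add, th_sq, th_X]; ring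

/-- `2^i binom(k,i) binom(2k,i)` -/
def nn (k i : ℕ) : ℤ := 2^i * (k.choose i : ℤ) * ((2*k).choose i : ℤ)

lemma nn_zero (k : ℕ) : nn k 0 = 1 := by simp [nn]

lemma nn_zero_of_lt {k i : ℕ} (h : k < i) : nn k i = 0 := by
  unfold nn; rw [Nat.choose_eq_zero_of_lt h]; simp

lemma ch_succ (m l : ℕ) : ((l:ℤ)+1) * (m.choose (l+1) : ℤ) = ((m:ℤ) - l) * (m.choose l : ℤ) := by
  rcases le_or_gt l m with h | h
  · have := Nat.choose_succ_right_eq m l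
    have h2 : (((m.choose (l+1) * (l+1) : ℕ)) : ℤ) = ((m.choose l * (m-l) : ℕ) : ℤ) := by rw [this]
    push_cast [Nat.cast_sub h] at h2
    linear_combination h2
  · rw [Nat.choose_eq_zero_of_lt (by omega : m < l+1), Nat.choose_eq_zero_of_lt h]; simp

lemma nn_succ (k i : ℕ) : ((i:ℤ)+1)^2 * nn k (i+1) = 2*((k:ℤ)-i)*(2*(k:ℤ)-i) * nn k i := by
  unfold nn
  have h1 := ch_succ k i
  have h2 := ch_succ (2*k) i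
  push_cast at h2
  rw [pow_succ]
  linear_combination (2*2^i*((i:ℤ)+1)*((2*k).choose (i+1) : ℤ)) * h1 + (2*2^i*((k:ℤ)-i)*(k.choose i : ℤ)) * h2

lemma ch_succQ (m l : ℕ) : ((m.choose (l+1) : ℕ) : ℚ) = ((m:ℚ) - l)/((l:ℚ)+1) * (m.choose l : ℚ) := by
  have h := ch_succ m l
  have h2 : (((l:ℤ)+1) * (m.choose (l+1) : ℤ) : ℚ) = (((m:ℤ) - l) * (m.choose l : ℤ) : ℚ) := by exact_mod_cast h
  have hk : ((l:ℚ)+1) ≠ 0 := by positivity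
  push_cast at h2
  field_simp
  linear_combination h2

/-- the contiguity relation for the coefficients -/
lemma nn_cont (k i : ℕ) :
    2*((k:ℤ)+1)*(2*k+1) * (nn k (i+2) - 4 * nn k (i+1) + 4 * nn k i)
      = ((8*k+5)*((k:ℤ)-1-i) - ((k:ℤ)+1)*(4*k+3)) * nn (k+1) (i+2)
        + (2*((k:ℤ)+1)*(2*(k:ℤ)+1-i)) * nn (k+1) (i+1) := by
  have e1 := ch_succQ k i
  have e2 := ch_succQ k (i+1)
  have f1 := ch_succQ (2*k) i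
  have f2 := ch_succQ (2*k) (i+1)
  have g1 : (((k+1).choose (i+1) : ℕ):ℚ) = (k.choose i : ℚ) + (k.choose (i+1) : ℚ) := by
    rw [Nat.choose_succ_succ']; push_cast; ring
  have g2 : (((k+1).choose (i+2) : ℕ):ℚ) = (k.choose (i+1) : ℚ) + (k.choose (i+2) : ℚ) := by
    rw [Nat.choose_succ_succ' k (i+1)]; push_cast; ring
  have g3 : (((2*(k+1)).choose (i+2) : ℕ):ℚ) = ((2*k).choose i : ℚ) + 2*((2*k).choose (i+1) : ℚ) + ((2*k).choose (i+2) : ℚ) := by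
    rw [show 2*(k+1) = 2*k+1+1 by ring, Nat.choose_succ_succ' (2*k+1) (i+1), Nat.choose_succ_succ' (2*k) i,
      Nat.choose_succ_succ' (2*k) (i+1)]; push_cast; ring
  have g4 : (2*(k:ℚ)+1-i) * (((2*(k+1)).choose (i+1) : ℕ):ℚ) = ((i:ℚ)+2) * (((2*(k+1)).choose (i+2) : ℕ):ℚ) := by
    have h := ch_succ (2*(k+1)) (i+1)
    have h2 : ((((i+1:ℕ):ℤ)+1) * ((2*(k+1)).choose (i+1+1) : ℤ) : ℚ)
      = ((((2*(k+1):ℕ):ℤ) - ((i+1:ℕ):ℤ)) * ((2*(k+1)).choose (i+1) : ℤ) : ℚ) := by exact_mod_cast h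
    push_cast at h2 ⊢
    rw [show i+1+1 = i+2 by ring] at h2
    linear_combination -h2
  have key : 2*((k:ℚ)+1)*(2*k+1) * ((2^(i+2) * (k.choose (i+2) : ℚ) * ((2*k).choose (i+2) : ℚ))
        - 4 * (2^(i+1) * (k.choose (i+1) : ℚ) * ((2*k).choose (i+1) : ℚ))
        + 4 * (2^i * (k.choose i : ℚ) * ((2*k).choose i : ℚ)))
      = ((8*k+5)*((k:ℚ)-1-i) - ((k:ℚ)+1)*(4*k+3)) * (2^(i+2) * ((k+1).choose (i+2) : ℚ) * ((2*(k+1)).choose (i+2) : ℚ))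
        + (2*((k:ℚ)+1)*(2*(k:ℚ)+1-i)) * (2^(i+1) * ((k+1).choose (i+1) : ℚ) * ((2*(k+1)).choose (i+1) : ℚ)) := by
    have e : (2*((k:ℚ)+1)*(2*(k:ℚ)+1-i)) * (2^(i+1) * ((k+1).choose (i+1) : ℚ) * ((2*(k+1)).choose (i+1) : ℚ))
        = 2*((k:ℚ)+1) * (2^(i+1) * ((k+1).choose (i+1) : ℚ)) * (((i:ℚ)+2) * (((2*(k+1)).choose (i+2) : ℕ):ℚ)) := by
      rw [← g4]; ring
    rw [e, g1, g2, g3, e2, f2, e1, f1, show (2:ℚ)^(i+2) = 4 * 2^i by ring, show (2:ℚ)^(i+1) = 2 * 2^i by ring]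
    push_cast
    have h1 : ((i:ℚ)+1) ≠ 0 := by positivity
    have h2 : ((i:ℚ)+1+1) ≠ 0 := by positivity
    field_simp
    ring
  unfold nn
  exact_mod_cast key

/-- weighted versions of `N_k`: `∑_i nn(k,i) (k-i)^m s^(k-i)` -/
noncomputable def Nw (k m : ℕ) : ℤ⟦X⟧ :=
  ∑ i ∈ range (k+1), ((nn k i : ℤ) : ℤ⟦X⟧) * (((k:ℤ⟦X⟧)-(i:ℤ⟦X⟧))^m) * s^(k-i)

lemma th_Nw (k m : ℕ) : (1+X) * th (Nw k m) = (1+2*X) * Nw k (m+1) := by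
  unfold Nw
  rw [th_sum, mul_sum, mul_sum]
  refine sum_congr rfl (fun i hi => ?_)
  rw [mem_range] at hi
  have h := th_pow_of th_s (k-i)
  have hc : th (((nn k i : ℤ) : ℤ⟦X⟧) * (((k:ℤ⟦X⟧)-(i:ℤ⟦X⟧))^m)) = 0 := by
    have e : ((nn k i : ℤ) : ℤ⟦X⟧) * (((k:ℤ⟦X⟧)-(i:ℤ⟦X⟧))^m) = ((nn k i * ((k:ℤ)-i)^m : ℤ) : ℤ⟦X⟧) := by
      push_cast; rfl
    rw [e, th_int]
  rw [Nat.cast_sub (by omega)] at h
  rw [th_mul, hc]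
  linear_combination (((nn k i : ℤ) : ℤ⟦X⟧) * (((k:ℤ⟦X⟧)-(i:ℤ⟦X⟧))^m)) * h

lemma E_gen (k : ℕ) (w : ℕ → ℤ⟦X⟧) :
    s * ∑ i ∈ range (k+1), ((nn k i : ℤ) : ℤ⟦X⟧) * (i:ℤ⟦X⟧)^2 * w (k-i+1) * s^(k-i)
      = ∑ i ∈ range (k+1), ((nn k i : ℤ) : ℤ⟦X⟧) * (2*((k:ℤ⟦X⟧)-i)*(2*(k:ℤ⟦X⟧)-i)) * w (k-i) * s^(k-i) := by
  rw [sum_range_succ', sum_range_succ _ k]
  simp only [Nat.cast_zero, sub_self, mul_zero, zero_mul, add_zero, ne_eq, OfNat.ofNat_ne_zero,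
    not_false_eq_true, zero_pow]
  rw [mul_sum]
  refine sum_congr rfl (fun i hi => ?_)
  rw [mem_range] at hi
  have h := nn_succ k i
  have h2 : (((((i:ℤ)+1)^2 * nn k (i+1) : ℤ)) : ℤ⟦X⟧) = ((2*((k:ℤ)-i)*(2*(k:ℤ)-i) * nn k i : ℤ) : ℤ⟦X⟧) := by rw [h]
  push_cast at h2 ⊢
  rw [show k - (i+1) + 1 = k - i by omega]
  have hs : s * s^(k-(i+1)) = s^(k-i) := by
    rw [← pow_succ', show k - (i+1) + 1 = k - i by omega]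
  linear_combination (w (k-i) * s^(k-i)) * h2 + (((nn k (i+1) : ℤ) : ℤ⟦X⟧) * ((i:ℤ⟦X⟧)+1)^2 * w (k-i)) * hs

lemma E0 (k : ℕ) : s * (Nw k 2 - 2*k*Nw k 1 + k^2 * Nw k 0) = 2*(Nw k 2 + k * Nw k 1) := by
  have h := E_gen k (fun _ => 1)
  have e1 : Nw k 2 - 2*k*Nw k 1 + k^2 * Nw k 0
      = ∑ i ∈ range (k+1), ((nn k i : ℤ) : ℤ⟦X⟧) * (i:ℤ⟦X⟧)^2 * 1 * s^(k-i) := by
    unfold Nw
    rw [mul_sum, mul_sum, ← sum_sub_distrib, ← sum_add_distrib]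
    exact sum_congr rfl (fun i _ => by ring)
  have e2 : 2*(Nw k 2 + k * Nw k 1)
      = ∑ i ∈ range (k+1), ((nn k i : ℤ) : ℤ⟦X⟧) * (2*((k:ℤ⟦X⟧)-i)*(2*(k:ℤ⟦X⟧)-i)) * 1 * s^(k-i) := by
    unfold Nw
    rw [mul_sum, ← sum_add_distrib, mul_sum]
    exact sum_congr rfl (fun i _ => by ring)
  rw [e1, e2]; exact h

lemma E1 (k : ℕ) : s * ((Nw k 2 - 2*k*Nw k 1 + k^2 * Nw k 0) + (Nw k 3 - 2*k*Nw k 2 + k^2 * Nw k 1))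
    = 2*(Nw k 3 + k * Nw k 2) := by
  have h := E_gen k (fun j => (j:ℤ⟦X⟧))
  have e1 : (Nw k 2 - 2*k*Nw k 1 + k^2 * Nw k 0) + (Nw k 3 - 2*k*Nw k 2 + k^2 * Nw k 1)
      = ∑ i ∈ range (k+1), ((nn k i : ℤ) : ℤ⟦X⟧) * (i:ℤ⟦X⟧)^2 * ((k-i+1:ℕ):ℤ⟦X⟧) * s^(k-i) := by
    unfold Nw
    simp only [mul_sum, ← sum_sub_distrib, ← sum_add_distrib]
    refine sum_congr rfl (fun i hi => ?_)
    rw [mem_range] at hi
    rw [Nat.cast_add, Nat.cast_sub (by omega)]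
    push_cast
    ring
  have e2 : 2*(Nw k 3 + k * Nw k 2)
      = ∑ i ∈ range (k+1), ((nn k i : ℤ) : ℤ⟦X⟧) * (2*((k:ℤ⟦X⟧)-i)*(2*(k:ℤ⟦X⟧)-i)) * ((k-i:ℕ):ℤ⟦X⟧) * s^(k-i) := by
    unfold Nw
    rw [mul_sum, ← sum_add_distrib, mul_sum]
    refine sum_congr rfl (fun i hi => ?_)
    rw [mem_range] at hi
    rw [Nat.cast_sub (by omega)]
    ring
  rw [e1, e2]; exact h

lemma shift1 (K : ℕ) (a : ℕ → ℤ⟦X⟧) (ha : a (K+1) = 0) :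
    s * ∑ i ∈ range (K+1), a i * s^(K-i) = a 0 * s^(K+1) + ∑ i ∈ range (K+1), a (i+1) * s^(K-i) := by
  have h1 : s * ∑ i ∈ range (K+1), a i * s^(K-i) = ∑ i ∈ range (K+2), a i * s^(K+1-i) := by
    rw [sum_range_succ _ (K+1), ha, zero_mul, add_zero, mul_sum]
    refine sum_congr rfl (fun i hi => ?_)
    rw [mem_range] at hi
    rw [show K+1-i = (K-i)+1 by omega, pow_succ]; ring
  rw [h1, sum_range_succ', add_comm]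
  congr 1
  refine sum_congr rfl (fun i hi => ?_)
  rw [show K+1-(i+1) = K-i by omega]

lemma head1 (K : ℕ) (a : ℕ → ℤ⟦X⟧) :
    ∑ i ∈ range (K+2), a i * s^(K+1-i) = a 0 * s^(K+1) + ∑ i ∈ range (K+1), a (i+1) * s^(K-i) := by
  rw [sum_range_succ', add_comm]
  congr 1
  refine sum_congr rfl (fun i hi => ?_)
  rw [show K+1-(i+1) = K-i by omega]

lemma cont (k : ℕ) :
    2*((k:ℤ⟦X⟧)+1)*(2*k+1) * (2-s)^2 * Nw k 0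
      = (2*((k:ℤ⟦X⟧)+1) + (8*k+5)*s) * Nw (k+1) 1
        + (2*((k:ℤ⟦X⟧)+1)^2 - ((k:ℤ⟦X⟧)+1)*(4*k+3)*s) * Nw (k+1) 0 := by
  have hN0 : Nw k 0 = ∑ i ∈ range (k+1), ((nn k i : ℤ) : ℤ⟦X⟧) * s^(k-i) := by
    unfold Nw; exact sum_congr rfl (fun i _ => by ring)
  have hM0 : Nw (k+1) 0 = ∑ i ∈ range (k+2), ((nn (k+1) i : ℤ) : ℤ⟦X⟧) * s^(k+1-i) := by
    unfold Nw; exact sum_congr rfl (fun i _ => by ring)
  have hM1 : Nw (k+1) 1 = ∑ i ∈ range (k+2), (((nn (k+1) i : ℤ) : ℤ⟦X⟧) * ((k:ℤ⟦X⟧)+1-i)) * s^(k+1-i) := by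
    unfold Nw; exact sum_congr rfl (fun i _ => by push_cast; ring)
  have z1 : ((nn k (k+1) : ℤ) : ℤ⟦X⟧) = 0 := by rw [nn_zero_of_lt (by omega)]; simp
  have z2 : ((nn k (k+1+1) : ℤ) : ℤ⟦X⟧) = 0 := by rw [nn_zero_of_lt (by omega)]; simp
  have z3 : ((nn (k+1) (k+1+1) : ℤ) : ℤ⟦X⟧) = 0 := by rw [nn_zero_of_lt (by omega)]; simp
  have a1 := shift1 k (fun i => ((nn k i : ℤ) : ℤ⟦X⟧)) z1
  have a2 := shift1 k (fun i => ((nn k (i+1) : ℤ) : ℤ⟦X⟧)) z2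
  have b0 := head1 k (fun i => ((nn (k+1) i : ℤ) : ℤ⟦X⟧))
  have b1 := shift1 k (fun i => ((nn (k+1) (i+1) : ℤ) : ℤ⟦X⟧)) z3
  have c0 := head1 k (fun i => ((nn (k+1) i : ℤ) : ℤ⟦X⟧) * ((k:ℤ⟦X⟧)+1-i))
  have c1 := shift1 k (fun i => ((nn (k+1) (i+1) : ℤ) : ℤ⟦X⟧) * ((k:ℤ⟦X⟧)+1-((i+1:ℕ):ℤ⟦X⟧))) (by simp only [z3, zero_mul])
  beta_reduce at a1 a2 b0 b1 c0 c1
  rw [hN0, hM0, hM1, b0, c0]
  have hk0 : ((nn k 0 : ℤ) : ℤ⟦X⟧) = 1 := by rw [nn_zero]; simp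
  have hk1 : ((nn (k+1) 0 : ℤ) : ℤ⟦X⟧) = 1 := by rw [nn_zero]; simp
  have hk2 : ((nn k (0+1) : ℤ) : ℤ⟦X⟧) = 4*(k:ℤ⟦X⟧)^2 := by
    have : nn k (0+1) = 4*(k:ℤ)^2 := by unfold nn; simp; ring
    rw [this]; push_cast; ring
  have hk3 : ((nn (k+1) (0+1) : ℤ) : ℤ⟦X⟧) = 4*((k:ℤ⟦X⟧)+1)^2 := by
    have : nn (k+1) (0+1) = 4*((k:ℤ)+1)^2 := by unfold nn; simp; ring
    rw [this]; push_cast; ring
  rw [hk0] at a1
  rw [hk2] at a2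
  rw [hk3] at b1 c1
  rw [hk1, Nat.cast_zero]
  have key : 2*((k:ℤ⟦X⟧)+1)*(2*k+1) * (∑ i ∈ range (k+1), ((nn k (i+1+1) : ℤ) : ℤ⟦X⟧) * s^(k-i)
        - 4 * ∑ i ∈ range (k+1), ((nn k (i+1) : ℤ) : ℤ⟦X⟧) * s^(k-i)
        + 4 * ∑ i ∈ range (k+1), ((nn k i : ℤ) : ℤ⟦X⟧) * s^(k-i))
      = (8*k+5) * ∑ i ∈ range (k+1), (((nn (k+1) (i+1+1) : ℤ) : ℤ⟦X⟧) * ((k:ℤ⟦X⟧)+1-((i+1+1:ℕ):ℤ⟦X⟧))) * s^(k-i)
        - ((k:ℤ⟦X⟧)+1)*(4*k+3) * ∑ i ∈ range (k+1), ((nn (k+1) (i+1+1) : ℤ) : ℤ⟦X⟧) * s^(k-i)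
        + 2*((k:ℤ⟦X⟧)+1) * ∑ i ∈ range (k+1), (((nn (k+1) (i+1) : ℤ) : ℤ⟦X⟧) * ((k:ℤ⟦X⟧)+1-((i+1:ℕ):ℤ⟦X⟧))) * s^(k-i)
        + 2*((k:ℤ⟦X⟧)+1)^2 * ∑ i ∈ range (k+1), ((nn (k+1) (i+1) : ℤ) : ℤ⟦X⟧) * s^(k-i) := by
    simp only [mul_sum, ← sum_sub_distrib, ← sum_add_distrib]
    refine sum_congr rfl (fun i _ => ?_)
    have h := nn_cont k i
    have h2 : ((2*((k:ℤ)+1)*(2*k+1) * (nn k (i+2) - 4 * nn k (i+1) + 4 * nn k i) : ℤ) : ℤ⟦X⟧)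
      = ((((8*k+5)*((k:ℤ)-1-i) - ((k:ℤ)+1)*(4*k+3)) * nn (k+1) (i+2)
        + (2*((k:ℤ)+1)*(2*(k:ℤ)+1-i)) * nn (k+1) (i+1) : ℤ) : ℤ⟦X⟧) := by rw [h]
    push_cast at h2 ⊢
    linear_combination s^(k-i) * h2
  push_cast at key a1 a2 b1 c1 ⊢
  linear_combination (2*((k:ℤ⟦X⟧)+1)*(2*k+1)*(s-4)) * a1 + (2*((k:ℤ⟦X⟧)+1)*(2*k+1)) * a2
    - (8*(k:ℤ⟦X⟧)+5) * c1 + (((k:ℤ⟦X⟧)+1)*(4*k+3)) * b1 + key

end Pool.Agent.V11307.Lin.Ser
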