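import Mathlib
import Pool.Agent.V11307.Lin.Ser

set_option autoImplicit false
set_option linter.unusedSimpArgs false

namespace Pool.Agent.V11307.Lin.Ser

open PowerSeries Finset


lemma th_2 : th (2:ℤ⟦X⟧) = 0 := by have := th_nat 2; simpa using this
lemma th_3 : th (3:ℤ⟦X⟧) = 0 := by have := th_nat 3; simpa using this
lemma th_4 : th (4:ℤ⟦X⟧) = 0 := by have := th_nat 4; simpa using this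
lemma th_5 : th (5:ℤ⟦X⟧) = 0 := by have := th_nat 5; simpa using this
lemma th_6 : th (6:ℤ⟦X⟧) = 0 := by have := th_nat 6; simpa using this
lemma th_7 : th (7:ℤ⟦X⟧) = 0 := by have := th_nat 7; simpa using this
lemma th_8 : th (8:ℤ⟦X⟧) = 0 := by have := th_nat 8; simpa using this
lemma th_9 : th (9:ℤ⟦X⟧) = 0 := by have := th_nat 9; simpa using this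

noncomputable def U : ℤ⟦X⟧ := PowerSeries.mk 1

lemma U_mul : U * (1 - (X:ℤ⟦X⟧)) = 1 := PowerSeries.mk_one_mul_one_sub_eq_one ℤ

noncomputable def V : ℤ⟦X⟧ := PowerSeries.mk (fun n => (-1)^n)

lemma V_mul : (1 + (X:ℤ⟦X⟧)) * V = 1 := by
  ext n
  rw [add_mul, one_mul, map_add]
  rcases n with _ | n
  · simp [V]
  · rw [coeff_succ_X_mul]
    simp [V, pow_succ, coeff_one]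

lemma th_U : (1-(X:ℤ⟦X⟧)) * th U = (X:ℤ⟦X⟧) * U := by
  have h := congrArg th U_mul
  rw [th_mul, th_sub, th_one, th_X] at h
  linear_combination h

/-- `t^k (1-t)^(-3k-1)` -/
noncomputable def W (k : ℕ) : ℤ⟦X⟧ := (X:ℤ⟦X⟧)^k * U^(3*k+1)

lemma th_W (k : ℕ) : (1-(X:ℤ⟦X⟧)) * th (W k) = ((k:ℤ⟦X⟧) + (2*k+1)*(X:ℤ⟦X⟧)) * W k := by
  unfold W
  have h1 := th_pow_of (f := ((X:ℤ⟦X⟧):ℤ⟦X⟧)) (c := 1) (d := 1) (by rw [th_X]) k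
  have h2 := th_pow_of th_U (3*k+1)
  rw [th_mul]
  push_cast at h2
  linear_combination ((1-(X:ℤ⟦X⟧)) * U^(3*k+1)) * h1 + (X:ℤ⟦X⟧)^k * h2

lemma W_succ (k : ℕ) : (1-(X:ℤ⟦X⟧))^3 * W (k+1) = (X:ℤ⟦X⟧) * W k := by
  unfold W
  have h := U_mul
  rw [show 3*(k+1)+1 = (3*k+1)+3 by ring, pow_add U, pow_succ (X:ℤ⟦X⟧) k]
  have h3 : U^3 * (1-(X:ℤ⟦X⟧))^3 = 1 := by rw [← mul_pow, h, one_pow]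
  linear_combination ((X:ℤ⟦X⟧)^k * (X:ℤ⟦X⟧) * U^(3*k+1)) * h3

noncomputable def pp (k m : ℕ) : ℤ⟦X⟧ := W k * Nw k m

lemma T (k m : ℕ) : (1-(X:ℤ⟦X⟧)^2) * th (pp k m)
    = (1+(X:ℤ⟦X⟧))*((k:ℤ⟦X⟧) + (2*k+1)*(X:ℤ⟦X⟧)) * pp k m + (1-(X:ℤ⟦X⟧))*(1+2*(X:ℤ⟦X⟧)) * pp k (m+1) := by
  unfold pp
  rw [th_mul]
  linear_combination ((1+(X:ℤ⟦X⟧)) * Nw k m) * th_W k + ((1-(X:ℤ⟦X⟧)) * W k) * th_Nw k m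

lemma EE0 (k : ℕ) : s * (pp k 2 - 2*k*pp k 1 + k^2 * pp k 0) = 2*(pp k 2 + k * pp k 1) := by
  unfold pp; linear_combination (W k) * E0 k

lemma EE1 (k : ℕ) : s * ((pp k 2 - 2*k*pp k 1 + k^2 * pp k 0) + (pp k 3 - 2*k*pp k 2 + k^2 * pp k 1))
    = 2*(pp k 3 + k * pp k 2) := by
  unfold pp; linear_combination (W k) * E1 k

lemma one_sub_ne : (1 - (X:ℤ⟦X⟧) : ℤ⟦X⟧) ≠ 0 := by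
  intro h; have := congrArg (coeff 0) h; simp at this

lemma one_sub_sq_ne : (1 - (X:ℤ⟦X⟧)^2 : ℤ⟦X⟧) ≠ 0 := by
  intro h; have := congrArg (coeff 0) h; simp at this

lemma two_add_ne : (2 + (X:ℤ⟦X⟧) : ℤ⟦X⟧) ≠ 0 := by
  intro h
  have h1 := congrArg (coeff 0) h
  have h2 : (coeff 0) ((2:ℕ) : ℤ⟦X⟧) = 2 := by
    rw [← map_natCast (C (R := ℤ)), coeff_zero_C]; simp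
  rw [map_add, show (2 : ℤ⟦X⟧) = ((2:ℕ) : ℤ⟦X⟧) by norm_num, h2] at h1
  simp at h1

/-- the coefficients of `(2n+1)^2 d s` -/
noncomputable def MM : ℕ → ℤ⟦X⟧
  | 0 => pp 0 0
  | (k+1) => (2*((k:ℤ⟦X⟧)+1)+1)^2 * pp (k+1) 0 + 4*((k:ℤ⟦X⟧)+1)^2 * pp k 0

lemma cont2 (k : ℕ) : 2*((k:ℤ⟦X⟧)+1)*(2*k+1) * (2+(X:ℤ⟦X⟧))^2 * (X:ℤ⟦X⟧) * pp k 0
    = (1-(X:ℤ⟦X⟧)) * ((2*((k:ℤ⟦X⟧)+1) + (8*k+5)*s) * pp (k+1) 1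
        + (2*((k:ℤ⟦X⟧)+1)^2 - ((k:ℤ⟦X⟧)+1)*(4*k+3)*s) * pp (k+1) 0) := by
  have h := cont k
  have hw := W_succ k
  have h2 : (2 - s : ℤ⟦X⟧) = (1-(X:ℤ⟦X⟧))*(2+(X:ℤ⟦X⟧)) := by unfold s; ring
  rw [h2] at h
  apply mul_left_cancel₀ (pow_ne_zero 2 one_sub_ne)
  unfold pp
  linear_combination ((1-(X:ℤ⟦X⟧))^3 * W (k+1)) * h - (2*((k:ℤ⟦X⟧)+1)*(2*k+1)*(1-(X:ℤ⟦X⟧))^2*(2+(X:ℤ⟦X⟧))^2*Nw k 0) * hw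

lemma MREL (k : ℕ) : (2*(k:ℤ⟦X⟧)-1)*(X:ℤ⟦X⟧)*(2+(X:ℤ⟦X⟧))^2 * MM k
    = ((2*(k:ℤ⟦X⟧)-1)*(2*k+1)^2*(X:ℤ⟦X⟧)*(2+(X:ℤ⟦X⟧))^2 + 2*k*(1-(X:ℤ⟦X⟧))*(2*k^2 - k*(4*k-1)*s)) * pp k 0
      + (2*k*(1-(X:ℤ⟦X⟧))*(2*k+(8*k-3)*s)) * pp k 1 := by
  rcases k with _ | k
  · simp [MM]
  · unfold MM
    have h := cont2 k
    push_cast
    linear_combination (2*((k:ℤ⟦X⟧)+1)) * h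

/-- the coefficients of `x (2n+1) d(x-1) s(x)` -/
noncomputable def rr (k : ℕ) : ℤ⟦X⟧ := U * V *
  (((1+(X:ℤ⟦X⟧))*(k:ℤ⟦X⟧)^2 + (X:ℤ⟦X⟧)*(1+(X:ℤ⟦X⟧))*((k:ℤ⟦X⟧)^2+5*k+1)) * pp k 0
    + ((1+(X:ℤ⟦X⟧))*(6*(k:ℤ⟦X⟧)) + (X:ℤ⟦X⟧)*(1+(X:ℤ⟦X⟧))*(6*k-1) + 2) * pp k 1
    + (9*(1+(X:ℤ⟦X⟧)) - 7*(X:ℤ⟦X⟧)*(1+(X:ℤ⟦X⟧)) - 4) * pp k 2)

lemma Rr (k : ℕ) : (1-(X:ℤ⟦X⟧)^2) * rr k =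
  ((1+(X:ℤ⟦X⟧))*(k:ℤ⟦X⟧)^2 + (X:ℤ⟦X⟧)*(1+(X:ℤ⟦X⟧))*((k:ℤ⟦X⟧)^2+5*k+1)) * pp k 0
    + ((1+(X:ℤ⟦X⟧))*(6*(k:ℤ⟦X⟧)) + (X:ℤ⟦X⟧)*(1+(X:ℤ⟦X⟧))*(6*k-1) + 2) * pp k 1
    + (9*(1+(X:ℤ⟦X⟧)) - 7*(X:ℤ⟦X⟧)*(1+(X:ℤ⟦X⟧)) - 4) * pp k 2 := by
  unfold rr
  have h1 := U_mul
  have h2 := V_mul
  generalize (((1+(X:ℤ⟦X⟧))*(k:ℤ⟦X⟧)^2 + (X:ℤ⟦X⟧)*(1+(X:ℤ⟦X⟧))*((k:ℤ⟦X⟧)^2+5*k+1)) * pp k 0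
    + ((1+(X:ℤ⟦X⟧))*(6*(k:ℤ⟦X⟧)) + (X:ℤ⟦X⟧)*(1+(X:ℤ⟦X⟧))*(6*k-1) + 2) * pp k 1
    + (9*(1+(X:ℤ⟦X⟧)) - 7*(X:ℤ⟦X⟧)*(1+(X:ℤ⟦X⟧)) - 4) * pp k 2) = Z
  linear_combination (V*(1+(X:ℤ⟦X⟧))*Z) * h1 + Z * h2

/-- the coefficients of `x (2n+1) d(x) s(x-1)` -/
noncomputable def qq (k : ℕ) : ℤ⟦X⟧ := (X:ℤ⟦X⟧) * (MM k + rr k)

lemma TT (k m : ℕ) : (-2*(X:ℤ⟦X⟧)^2) * th (pp k m) + (1-(X:ℤ⟦X⟧)^2) * th (th (pp k m))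
    = ((3*(k:ℤ⟦X⟧)+1)*(X:ℤ⟦X⟧) + 2*(2*k+1)*(X:ℤ⟦X⟧)^2) * pp k m + (1+(X:ℤ⟦X⟧))*((k:ℤ⟦X⟧) + (2*k+1)*(X:ℤ⟦X⟧)) * th (pp k m)
      + ((X:ℤ⟦X⟧) - 4*(X:ℤ⟦X⟧)^2) * pp k (m+1) + (1-(X:ℤ⟦X⟧))*(1+2*(X:ℤ⟦X⟧)) * th (pp k (m+1)) := by
  have h := congrArg th (T k m)
  simp only [th_mul, th_add, th_sub, th_sq, th_X, th_one, th_nat, th_2, th_3, th_4, th_5, th_6, th_7, th_8, th_9] at h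
  linear_combination h

lemma TTT (k m : ℕ) : (-4*(X:ℤ⟦X⟧)^2) * th (pp k m) + 2*(-2*(X:ℤ⟦X⟧)^2) * th (th (pp k m)) + (1-(X:ℤ⟦X⟧)^2) * th (th (th (pp k m)))
    = ((3*(k:ℤ⟦X⟧)+1)*(X:ℤ⟦X⟧) + 4*(2*k+1)*(X:ℤ⟦X⟧)^2) * pp k m + 2*((3*(k:ℤ⟦X⟧)+1)*(X:ℤ⟦X⟧) + 2*(2*k+1)*(X:ℤ⟦X⟧)^2) * th (pp k m)
      + (1+(X:ℤ⟦X⟧))*((k:ℤ⟦X⟧) + (2*k+1)*(X:ℤ⟦X⟧)) * th (th (pp k m))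
      + ((X:ℤ⟦X⟧) - 8*(X:ℤ⟦X⟧)^2) * pp k (m+1) + 2*((X:ℤ⟦X⟧) - 4*(X:ℤ⟦X⟧)^2) * th (pp k (m+1)) + (1-(X:ℤ⟦X⟧))*(1+2*(X:ℤ⟦X⟧)) * th (th (pp k (m+1))) := by
  have h := congrArg th (TT k m)
  simp only [th_mul, th_add, th_sub, th_neg, th_sq, th_X, th_one, th_nat, th_2, th_3, th_4, th_5, th_6, th_7, th_8, th_9] at h
  linear_combination h

lemma TRr (k : ℕ) : (-2*(X:ℤ⟦X⟧)^2) * rr k + (1-(X:ℤ⟦X⟧)^2) * th (rr k) =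
  ((X:ℤ⟦X⟧)*(k:ℤ⟦X⟧)^2 + ((X:ℤ⟦X⟧)+2*(X:ℤ⟦X⟧)^2)*((k:ℤ⟦X⟧)^2+5*k+1)) * pp k 0
    + ((1+(X:ℤ⟦X⟧))*(k:ℤ⟦X⟧)^2 + (X:ℤ⟦X⟧)*(1+(X:ℤ⟦X⟧))*((k:ℤ⟦X⟧)^2+5*k+1)) * th (pp k 0)
    + ((X:ℤ⟦X⟧)*(6*(k:ℤ⟦X⟧)) + ((X:ℤ⟦X⟧)+2*(X:ℤ⟦X⟧)^2)*(6*k-1)) * pp k 1
    + ((1+(X:ℤ⟦X⟧))*(6*(k:ℤ⟦X⟧)) + (X:ℤ⟦X⟧)*(1+(X:ℤ⟦X⟧))*(6*k-1) + 2) * th (pp k 1)
    + (9*(X:ℤ⟦X⟧) - 7*((X:ℤ⟦X⟧)+2*(X:ℤ⟦X⟧)^2)) * pp k 2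
    + (9*(1+(X:ℤ⟦X⟧)) - 7*(X:ℤ⟦X⟧)*(1+(X:ℤ⟦X⟧)) - 4) * th (pp k 2) := by
  have h := congrArg th (Rr k)
  simp only [th_mul, th_add, th_sub, th_neg, th_sq, th_X, th_one, th_nat, th_2, th_3, th_4, th_5, th_6, th_7, th_8, th_9] at h
  linear_combination h

end Pool.Agent.V11307.Lin.Ser
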