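import Mathlib
import Pool.Agent.V11307.Lin.Ser2

set_option autoImplicit false
set_option linter.unusedSimpArgs false

namespace Pool.Agent.V11307.Lin.Ser

open PowerSeries Finset

/-- algebraic part of the third relation -/
lemma alg3 {R : Type*} [CommRing R]
    (x k s p0 p1 p2 p3 t0 t1 t2 u0 u1 v0 r tr d a c a' c' a'' c'' ρ0 ρ1 ρ2 : R)
    (hs : s = x + x^2) (hd : d = 1 - x^2) (ha : a = (1+x)*(k+(2*k+1)*x)) (hc : c = (1-x)*(1+2*x))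
    (ha' : a' = (3*k+1)*x + 2*(2*k+1)*x^2) (hc' : c' = x - 4*x^2)
    (ha'' : a'' = (3*k+1)*x + 4*(2*k+1)*x^2) (hc'' : c'' = x - 8*x^2)
    (hρ0 : ρ0 = (1+x)*k^2 + x*(1+x)*(k^2+5*k+1)) (hρ1 : ρ1 = (1+x)*(6*k) + x*(1+x)*(6*k-1) + 2)
    (hρ2 : ρ2 = 9*(1+x) - 7*x*(1+x) - 4)
    (T0 : d * t0 = a * p0 + c * p1) (T1 : d * t1 = a * p1 + c * p2) (T2 : d * t2 = a * p2 + c * p3)
    (TT0 : (-2*x^2) * t0 + d * u0 = a' * p0 + a * t0 + c' * p1 + c * t1)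
    (TT1 : (-2*x^2) * t1 + d * u1 = a' * p1 + a * t1 + c' * p2 + c * t2)
    (TTT0 : (-4*x^2) * t0 + 2*(-2*x^2) * u0 + d * v0 = a'' * p0 + 2*a' * t0 + a * u0 + c'' * p1 + 2*c'*t1 + c * u1)
    (Rr : d * r = ρ0 * p0 + ρ1 * p1 + ρ2 * p2)
    (TRr : (-2*x^2) * r + d * tr = (x*k^2 + (x+2*x^2)*(k^2+5*k+1)) * p0 + ρ0 * t0
      + (x*(6*k) + (x+2*x^2)*(6*k-1)) * p1 + ρ1 * t1 + (9*x - 7*(x+2*x^2)) * p2 + ρ2 * t2)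
    (E0 : s * (p2 - 2*k*p1 + k^2*p0) = 2*(p2 + k*p1))
    (E1 : s * ((p2 - 2*k*p1 + k^2*p0) + (p3 - 2*k*p2 + k^2*p1)) = 2*(p3 + k*p2)) :
    d^2 * (d * v0 - (1+2*x) * tr - x * r - 3*x^2*u0 - 3*x^2*t0 - x^2*p0) = 0 := by
  subst hs hd ha hc ha' hc' ha'' hc'' hρ0 hρ1 hρ2
  linear_combination (1-x^2)^2 * TTT0
    + (1-x^2) * ((1+x)*(k+(2*k+1)*x) - 2*(-2*x^2) - 3*x^2) * TT0
    + (1-x^2) * ((1-x)*(1+2*x)) * TT1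
    - (1-x^2) * (1+2*x) * TRr
    + ((1-x^2)*(2*((3*k+1)*x + 2*(2*k+1)*x^2) - (-4*x^2) - 3*x^2)
        + ((1+x)*(k+(2*k+1)*x) - 2*(-2*x^2) - 3*x^2)*((1+x)*(k+(2*k+1)*x) - (-2*x^2))
        - (1+2*x)*((1+x)*k^2 + x*(1+x)*(k^2+5*k+1))) * T0
    + (2*(1-x^2)*(x - 4*x^2) + ((1+x)*(k+(2*k+1)*x) - 2*(-2*x^2) - 3*x^2)*((1-x)*(1+2*x))
        + ((1-x)*(1+2*x))*((1+x)*(k+(2*k+1)*x) - (-2*x^2))
        - (1+2*x)*((1+x)*(6*k) + x*(1+x)*(6*k-1) + 2)) * T1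
    + (((1-x)*(1+2*x))^2 - (1+2*x)*(9*(1+x) - 7*x*(1+x) - 4)) * T2
    + (-x*(1-x^2) + (1+2*x)*(-2*x^2)) * Rr
    + (2 + 8*x + 6*x^2 - 8*x^3 - 8*x^4) * E1
    + ((1+2*k) + (7+12*k)*x + (15+26*k)*x^2 + (17+24*k)*x^3 + (8+8*k)*x^4) * E0

/-- algebraic part of the second relation -/
lemma alg2 {R : Type*} [CommRing R]
    (x k s p0 p1 p2 p3 t0 t1 t2 r tr M tM d a c a' c' ρ0 ρ1 ρ2 A0 A1 : R)
    (hs : s = x + x^2) (hd : d = 1 - x^2) (ha : a = (1+x)*(k+(2*k+1)*x)) (hc : c = (1-x)*(1+2*x))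
    (hρ0 : ρ0 = (1+x)*k^2 + x*(1+x)*(k^2+5*k+1)) (hρ1 : ρ1 = (1+x)*(6*k) + x*(1+x)*(6*k-1) + 2)
    (hρ2 : ρ2 = 9*(1+x) - 7*x*(1+x) - 4)
    (hA0 : A0 = (2*k-1)*(2*k+1)^2*x*(2+x)^2 + 2*k*(1-x)*(2*k^2 - k*(4*k-1)*s))
    (hA1 : A1 = 2*k*(1-x)*(2*k+(8*k-3)*s))
    (T0 : d * t0 = a * p0 + c * p1) (T1 : d * t1 = a * p1 + c * p2) (T2 : d * t2 = a * p2 + c * p3)
    (Rr : d * r = ρ0 * p0 + ρ1 * p1 + ρ2 * p2)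
    (TRr : (-2*x^2) * r + d * tr = (x*k^2 + (x+2*x^2)*(k^2+5*k+1)) * p0 + ρ0 * t0
      + (x*(6*k) + (x+2*x^2)*(6*k-1)) * p1 + ρ1 * t1 + (9*x - 7*(x+2*x^2)) * p2 + ρ2 * t2)
    (MR : (2*k-1)*x*(2+x)^2 * M = A0 * p0 + A1 * p1)
    (TM : (2*k-1)*(x*(2+x)*(2+3*x) * M + x*(2+x)^2 * tM) = a' * p0 + A0 * t0 + c' * p1 + A1 * t1)
    (ha' : a' = (2*k-1)*(2*k+1)^2*(x*(2+x)*(2+3*x)) + 2*k*((-x)*(2*k^2 - k*(4*k-1)*s) + (1-x)*(-k*(4*k-1)*(x+2*x^2))))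
    (hc' : c' = 2*k*((-x)*(2*k+(8*k-3)*s) + (1-x)*((8*k-3)*(x+2*x^2))))
    (E0 : s * (p2 - 2*k*p1 + k^2*p0) = 2*(p2 + k*p1))
    (E1 : s * ((p2 - 2*k*p1 + k^2*p0) + (p3 - 2*k*p2 + k^2*p1)) = 2*(p3 + k*p2)) :
    d * (2*k-1) * (2+x)^2 * (d * tr - x*((2+x)*tM + (1+x)*M) - x^2*r) = 0 := by
  subst hs hd ha hc ha' hc' hρ0 hρ1 hρ2 hA0 hA1
  linear_combination (1-x^2) * (2*k-1) * (2+x)^2 * TRr
    - (1-x^2) * (2+x) * TM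
    + (1-x^2) * (1+2*x) * MR
    + ((2*k-1)*(2+x)^2*((1+x)*k^2 + x*(1+x)*(k^2+5*k+1))
        - (2+x)*((2*k-1)*(2*k+1)^2*x*(2+x)^2 + 2*k*(1-x)*(2*k^2 - k*(4*k-1)*(x+x^2)))) * T0
    + ((2*k-1)*(2+x)^2*((1+x)*(6*k) + x*(1+x)*(6*k-1) + 2)
        - (2+x)*(2*k*(1-x)*(2*k+(8*k-3)*(x+x^2)))) * T1
    + ((2*k-1)*(2+x)^2*(9*(1+x) - 7*x*(1+x) - 4)) * T2
    - ((2*k-1)*(2+x)^2*((-2*x^2) + x^2)) * Rr
    + ((10-20*k) + (29-58*k)*x + (6-12*k)*x^2 + (-31+62*k)*x^3 + (-14+28*k)*x^4) * E1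
    + ((4+4*k-20*k^2) + (27-k-98*k^2)*x + (36+12*k-168*k^2)*x^2 + (29-k-118*k^2)*x^3 + (12-14*k-28*k^2)*x^4) * E0


lemma TM (k : ℕ) : (2*(k:ℤ⟦X⟧)-1)*((X:ℤ⟦X⟧)*(2+(X:ℤ⟦X⟧))*(2+3*(X:ℤ⟦X⟧)) * MM k + (X:ℤ⟦X⟧)*(2+(X:ℤ⟦X⟧))^2 * th (MM k))
    = ((2*(k:ℤ⟦X⟧)-1)*(2*k+1)^2*((X:ℤ⟦X⟧)*(2+(X:ℤ⟦X⟧))*(2+3*(X:ℤ⟦X⟧))) + 2*k*((-(X:ℤ⟦X⟧))*(2*k^2 - k*(4*k-1)*s) + (1-(X:ℤ⟦X⟧))*(-k*(4*k-1)*((X:ℤ⟦X⟧)+2*(X:ℤ⟦X⟧)^2)))) * pp k 0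
      + ((2*(k:ℤ⟦X⟧)-1)*(2*k+1)^2*(X:ℤ⟦X⟧)*(2+(X:ℤ⟦X⟧))^2 + 2*k*(1-(X:ℤ⟦X⟧))*(2*k^2 - k*(4*k-1)*s)) * th (pp k 0)
      + (2*k*((-(X:ℤ⟦X⟧))*(2*k+(8*k-3)*s) + (1-(X:ℤ⟦X⟧))*((8*k-3)*((X:ℤ⟦X⟧)+2*(X:ℤ⟦X⟧)^2)))) * pp k 1
      + (2*k*(1-(X:ℤ⟦X⟧))*(2*k+(8*k-3)*s)) * th (pp k 1) := by
  have h := congrArg th (MREL k)
  have hs : th s = (X:ℤ⟦X⟧) + 2*(X:ℤ⟦X⟧)^2 := by
    unfold s
    simp only [th_mul, th_add, th_sub, th_neg, th_sq, th_X, th_one]; ring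
  simp only [th_mul, th_add, th_sub, th_neg, th_sq, th_X, th_one, th_nat, th_2, th_3, th_4, th_5, th_6, th_7, th_8, th_9, hs] at h
  linear_combination h

lemma twok_ne (k : ℕ) : (2*(k:ℤ⟦X⟧)-1) ≠ 0 := by
  intro h
  have h1 := congrArg (coeff 0) h
  have h2 : (coeff 0) (((2*k:ℕ)) : ℤ⟦X⟧) = ((2*k:ℕ):ℤ) := by
    rw [← map_natCast (C (R := ℤ)), coeff_zero_C]
  rw [map_sub, show (2*(k:ℤ⟦X⟧)) = ((2*k:ℕ) : ℤ⟦X⟧) by push_cast; ring, h2] at h1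
  simp at h1
  omega

lemma S2 (k : ℕ) : th (rr k) = (X:ℤ⟦X⟧)*(2 * th (MM k) + MM k) + (X:ℤ⟦X⟧) * th (qq k) := by
  have h := alg2 (R := ℤ⟦X⟧) (X:ℤ⟦X⟧) (k:ℤ⟦X⟧) s (pp k 0) (pp k 1) (pp k 2) (pp k 3) (th (pp k 0)) (th (pp k 1)) (th (pp k 2))
    (rr k) (th (rr k)) (MM k) (th (MM k)) _ _ _ _ _ _ _ _ _ _ rfl rfl rfl rfl rfl rfl rfl rfl rfl
    (by have := T k 0; linear_combination this) (by have := T k 1; linear_combination this)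
    (by have := T k 2; linear_combination this)
    (by have := Rr k; linear_combination this) (by have := TRr k; linear_combination this)
    (by have := MREL k; linear_combination this) (by have := TM k; linear_combination this) rfl rfl
    (EE0 k) (EE1 k)
  have h1 : (1-(X:ℤ⟦X⟧)^2) * (2*(k:ℤ⟦X⟧)-1) * (2+(X:ℤ⟦X⟧))^2 ≠ 0 :=
    mul_ne_zero (mul_ne_zero one_sub_sq_ne (twok_ne k)) (pow_ne_zero 2 two_add_ne)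
  have h2 := (mul_eq_zero.mp h).resolve_left h1
  unfold qq
  rw [th_mul, th_X, th_add]
  linear_combination h2

lemma S3 (k : ℕ) : th (th (th (pp k 0))) = th (rr k) + (X:ℤ⟦X⟧)*(2 * th (rr k) + rr k)
    + (X:ℤ⟦X⟧)^2 * (th (th (th (pp k 0))) + 3 * th (th (pp k 0)) + 3 * th (pp k 0) + pp k 0) := by
  have h := alg3 (R := ℤ⟦X⟧) (X:ℤ⟦X⟧) (k:ℤ⟦X⟧) s (pp k 0) (pp k 1) (pp k 2) (pp k 3) (th (pp k 0)) (th (pp k 1)) (th (pp k 2))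
    (th (th (pp k 0))) (th (th (pp k 1))) (th (th (th (pp k 0))))
    (rr k) (th (rr k)) _ _ _ _ _ _ _ _ _ _ rfl rfl rfl rfl rfl rfl rfl rfl rfl rfl rfl
    (by have := T k 0; linear_combination this) (by have := T k 1; linear_combination this)
    (by have := T k 2; linear_combination this)
    (by have := TT k 0; linear_combination this) (by have := TT k 1; linear_combination this)
    (by have := TTT k 0; linear_combination this)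
    (by have := Rr k; linear_combination this) (by have := TRr k; linear_combination this)
    (EE0 k) (EE1 k)
  have h2 := (mul_eq_zero.mp h).resolve_left (pow_ne_zero 2 one_sub_sq_ne)
  linear_combination h2

/-! ### coefficient form -/

/-- `e_k(x)` -/
noncomputable def e (k x : ℕ) : ℤ := coeff x (pp k 0)
noncomputable def cr (k x : ℕ) : ℤ := coeff x (rr k)
noncomputable def cq (k x : ℕ) : ℤ := coeff x (qq k)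
noncomputable def cm (k x : ℕ) : ℤ := coeff x (MM k)

lemma c1 (k x : ℕ) : cq k (x+1) = cm k x + cr k x := by
  unfold cq cm cr qq
  rw [coeff_succ_X_mul, map_add]

lemma c2 (k x : ℕ) : ((x:ℤ)+1) * cr k (x+1) = (2*x+1) * cm k x + x * cq k x := by
  have h := congrArg (coeff (x+1)) (S2 k)
  have h2 : (X:ℤ⟦X⟧)*(2 * th (MM k) + MM k) + (X:ℤ⟦X⟧) * th (qq k) = (X:ℤ⟦X⟧) * (th (MM k) + th (MM k) + MM k + th (qq k)) := by ring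
  rw [h2, coeff_succ_X_mul, coeff_th, map_add, map_add, map_add, coeff_th, coeff_th] at h
  unfold cr cm cq
  push_cast at h
  linear_combination h

lemma c3 (k x : ℕ) : ((x:ℤ)+2)^3 * e k (x+2) = (x+2) * cr k (x+2) + (2*x+3) * cr k (x+1) + ((x:ℤ)+1)^3 * e k x := by
  have h := congrArg (coeff (x+1+1)) (S3 k)
  have h2 : th (rr k) + (X:ℤ⟦X⟧)*(2 * th (rr k) + rr k)
    + (X:ℤ⟦X⟧)^2 * (th (th (th (pp k 0))) + 3 * th (th (pp k 0)) + 3 * th (pp k 0) + pp k 0)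
    = th (rr k) + (X:ℤ⟦X⟧) * ((th (rr k) + th (rr k) + rr k) + (X:ℤ⟦X⟧) * (th (th (th (pp k 0))) + (th (th (pp k 0)) + th (th (pp k 0)) + th (th (pp k 0)))
      + (th (pp k 0) + th (pp k 0) + th (pp k 0)) + pp k 0)) := by ring
  rw [h2, map_add, coeff_succ_X_mul, map_add, coeff_succ_X_mul] at h
  simp only [map_add, coeff_th] at h
  unfold e cr
  push_cast at h
  linear_combination h

lemma c3' (k : ℕ) : e k 1 = cr k 1 + cr k 0 := by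
  have h := congrArg (coeff (0+1)) (S3 k)
  have h2 : th (rr k) + (X:ℤ⟦X⟧)*(2 * th (rr k) + rr k)
    + (X:ℤ⟦X⟧)^2 * (th (th (th (pp k 0))) + 3 * th (th (pp k 0)) + 3 * th (pp k 0) + pp k 0)
    = th (rr k) + (X:ℤ⟦X⟧) * ((th (rr k) + th (rr k) + rr k) + (X:ℤ⟦X⟧) * (th (th (th (pp k 0))) + (th (th (pp k 0)) + th (th (pp k 0)) + th (th (pp k 0)))
      + (th (pp k 0) + th (pp k 0) + th (pp k 0)) + pp k 0)) := by ring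
  rw [h2, map_add, coeff_succ_X_mul, map_add, coeff_zero_X_mul] at h
  simp only [map_add, coeff_th] at h
  unfold e cr
  push_cast at h
  linear_combination h

lemma cm_zero (x : ℕ) : cm 0 x = e 0 x := rfl

lemma MM_succ (k : ℕ) : MM (k+1) = (2*((k:ℤ⟦X⟧)+1)+1)^2 * pp (k+1) 0 + 4*((k:ℤ⟦X⟧)+1)^2 * pp k 0 := rfl

lemma cm_succ (k x : ℕ) : cm (k+1) x = (2*((k:ℤ)+1)+1)^2 * e (k+1) x + 4*((k:ℤ)+1)^2 * e k x := by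
  unfold cm e
  rw [MM_succ]
  have e1 : (2*((k:ℤ⟦X⟧)+1)+1)^2 * pp (k+1) 0 + 4*((k:ℤ⟦X⟧)+1)^2 * pp k 0
      = C ((2*((k:ℤ)+1)+1)^2) * pp (k+1) 0 + C (4*((k:ℤ)+1)^2) * pp k 0 := by
    simp [map_add, map_mul, map_pow]
  rw [e1, map_add, coeff_C_mul, coeff_C_mul]

end Pool.Agent.V11307.Lin.Ser
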