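import Mathlib
import Pool.Agent.V11307.Lin.Prod
import Pool.Agent.V11307.Lin.Ser3

set_option autoImplicit false
set_option linter.unusedSimpArgs false

namespace Pool.Agent.V11307.Lin

open Finset

/-! ### recurrences in `x` for `d_n(x)` and `s_n(x)` -/

def dd (n x : ℕ) : ℤ := ∑ j ∈ range (n+1), (n.choose j : ℤ) * (2^j * (x.choose j : ℤ))
def ss (n x : ℕ) : ℤ := ∑ j ∈ range (n+1), (n.choose j : ℤ) * b x j

lemma weight (n : ℕ) (g : ℕ → ℤ) :
    (2*(n:ℤ)+1) * ∑ j ∈ range (n+1), (n.choose j : ℤ) * g j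
      = ∑ j ∈ range (n+1), (n.choose j : ℤ) * ((2*j+1) * g j + 2*j*g (j-1)) := by
  have h1 : (2*(n:ℤ)+1) * ∑ j ∈ range (n+1), (n.choose j : ℤ) * g j
      = ∑ j ∈ range (n+1), (n.choose j : ℤ) * ((2*j+1) * g j)
        + ∑ j ∈ range (n+1), 2 * (((n:ℤ)-j) * (n.choose j : ℤ)) * g j := by
    rw [mul_sum, ← sum_add_distrib]
    exact sum_congr rfl (fun j _ => by ring)
  have h2 : ∑ j ∈ range (n+1), 2 * (((n:ℤ)-j) * (n.choose j : ℤ)) * g j
      = ∑ j ∈ range (n+1), (n.choose j : ℤ) * (2*j*g (j-1)) := by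
    rw [sum_range_succ, sum_range_succ' _ n]
    simp only [sub_self, zero_mul, mul_zero, add_zero, Nat.cast_zero]
    refine sum_congr rfl (fun j _ => ?_)
    rw [← succ_choose_eq n j, show j+1-1 = j by omega]
    push_cast; ring
  rw [h1, h2, ← sum_add_distrib]
  exact sum_congr rfl (fun j _ => by ring)

lemma dd_zero (n : ℕ) : dd n 0 = 1 := by
  unfold dd
  rw [sum_range_succ', sum_eq_zero]
  · simp
  · intro j _; simp

lemma ss_zero (n : ℕ) : ss n 0 = 1 := by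
  unfold ss b
  rw [sum_range_succ', sum_eq_zero]
  · simp
  · intro j _; simp

lemma dd_one (n : ℕ) : dd n 1 = 2*n+1 := by
  have h := weight n (fun j => 2^j * ((0:ℕ).choose j : ℤ))
  have h0 : ∑ j ∈ range (n+1), (n.choose j : ℤ) * (2^j * ((0:ℕ).choose j : ℤ)) = 1 := dd_zero n
  rw [h0, mul_one] at h
  rw [h]
  unfold dd
  refine sum_congr rfl (fun j _ => ?_)
  rcases j with _ | _ | j
  · simp
  · simp
  · simp [Nat.choose_eq_zero_of_lt]

lemma ss_one (n : ℕ) : ss n 1 = 2*n+1 := by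
  have h := weight n (fun j => b 0 j)
  have h0 : ∑ j ∈ range (n+1), (n.choose j : ℤ) * b 0 j = 1 := ss_zero n
  rw [h0, mul_one] at h
  rw [h]
  unfold ss
  refine sum_congr rfl (fun j _ => ?_)
  rcases j with _ | _ | j
  · simp [b]
  · simp [b, Nat.choose]
  · simp [b, Nat.choose_eq_zero_of_lt]

lemma dd_rec (n x : ℕ) : ((x:ℤ)+2) * dd n (x+2) = (2*n+1) * dd n (x+1) + ((x:ℤ)+1) * dd n x := by
  unfold dd
  rw [weight n (fun j => 2^j * (((x+1).choose j : ℕ) : ℤ)), mul_sum, mul_sum, ← sum_add_distrib]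
  refine sum_congr rfl (fun j _ => ?_)
  rcases j with _ | m
  · simp; ring
  · have h1 := top_succ x (m+1)
    have h2 := succ_choose_eq (x+1) m
    have h3 : (((x+2).choose (m+1) : ℕ):ℤ) = ((x+1).choose m : ℤ) + ((x+1).choose (m+1) : ℤ) := by
      rw [Nat.choose_succ_succ']; push_cast; ring
    rw [h3, show m+1-1 = m by omega]
    push_cast at h1 h2 ⊢
    rw [pow_succ]
    linear_combination ((n.choose (m+1) : ℤ) * (2^m*2)) * h1 - ((n.choose (m+1) : ℤ) * (2^m*2)) * h2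

lemma b_shift1 (x j : ℕ) : ((j:ℤ)+1)^2 * b (x+1) (j+1) = ((x:ℤ)+1-j)*((x:ℤ)+2+j) * b (x+1) j := by
  have := b_rec (x+1) j
  push_cast at this
  linear_combination this

lemma b_shift2 (x j : ℕ) : ((j:ℤ)+1)^2 * b (x+2) (j+1) = ((x:ℤ)+3+j)*((x:ℤ)+2+j) * b (x+1) j := by
  unfold b
  have h1 := Nat.add_one_mul_choose_eq (x+1) j
  have h1' : ((((x+1+1) * (x+1).choose j : ℕ)):ℤ) = (((x+2).choose (j+1) * (j+1) : ℕ):ℤ) := by rw [h1]
  have h2 := choose_add_eq (x+2) j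
  have h3 := top_succ (x+1+j) j
  rw [show x+2+(j+1) = x+2+j+1 by ring]
  rw [show x+1+j+1 = x+2+j by ring] at h3
  push_cast at h1' h2 h3
  have hx : ((x:ℤ)+2) ≠ 0 := by positivity
  apply mul_left_cancel₀ hx
  linear_combination (-(((x:ℤ)+2)*((j:ℤ)+1)*((x+2+j+1).choose (j+1) : ℤ))) * h1'
    + (((x:ℤ)+2)^2*((x+1).choose j : ℤ)) * h2 + (((x:ℤ)+2)*((x:ℤ)+3+j)*((x+1).choose j : ℤ)) * h3

lemma b_shift0 (x j : ℕ) : ((j:ℤ)+1)^2 * b x (j+1) = ((x:ℤ)+1-j)*((x:ℤ)-j) * b (x+1) j := by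
  unfold b
  have h1 := succ_choose_eq x j
  have h2 := choose_add_eq x j
  have h3 := top_succ (x+j) j
  have h4 := top_succ x j
  rw [show x+(j+1) = x+j+1 by ring, show x+1+j = x+j+1 by ring]
  push_cast at h3
  have hx : ((x:ℤ)+1) ≠ 0 := by positivity
  apply mul_left_cancel₀ hx
  linear_combination (((x:ℤ)+1)*((j:ℤ)+1)*((x+j+1).choose (j+1) : ℤ)) * h1
    + (((x:ℤ)+1)*((x:ℤ)-j)*(x.choose j : ℤ)) * h2 - (((x:ℤ)+1)*((x:ℤ)-j)*(x.choose j : ℤ)) * h3
    - (((x:ℤ)+1)*((x:ℤ)-j)*((x+j+1).choose j : ℤ)) * h4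

lemma ss_rec (n x : ℕ) : ((x:ℤ)+2)^2 * ss n (x+2) = (2*n+1) * (2*x+3) * ss n (x+1) + ((x:ℤ)+1)^2 * ss n x := by
  unfold ss
  have h := weight n (fun j => b (x+1) j)
  have e : (2*(n:ℤ)+1) * (2*x+3) * ∑ j ∈ range (n+1), (n.choose j : ℤ) * b (x+1) j
      = (2*x+3) * ((2*(n:ℤ)+1) * ∑ j ∈ range (n+1), (n.choose j : ℤ) * b (x+1) j) := by ring
  rw [e, h, mul_sum, mul_sum, mul_sum, ← sum_add_distrib]
  refine sum_congr rfl (fun j _ => ?_)
  rcases j with _ | m
  · simp [b]; ring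
  · have h1 := b_shift1 x m
    have h2 := b_shift2 x m
    have h0 := b_shift0 x m
    rw [show m+1-1 = m by omega]
    have hm : ((m:ℤ)+1)^2 ≠ 0 := by positivity
    apply mul_left_cancel₀ hm
    push_cast
    linear_combination ((n.choose (m+1) : ℤ) * ((x:ℤ)+2)^2) * h2
      - ((n.choose (m+1) : ℤ) * (2*(x:ℤ)+3) * (2*((m:ℤ)+1)+1)) * h1
      - ((n.choose (m+1) : ℤ) * ((x:ℤ)+1)^2) * h0

/-! ### the two systems -/

lemma unique {ω : ℤ} {P Q R P' Q' R' : ℕ → ℤ}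
    (hP0 : P 0 = P' 0) (hQ0 : Q 0 = Q' 0) (hR0 : R 0 = R' 0)
    (h1 : ∀ x, Q (x+1) = ω * P x + R x) (h1' : ∀ x, Q' (x+1) = ω * P' x + R' x)
    (h2 : ∀ x : ℕ, ((x:ℤ)+1) * R (x+1) = (2*x+1) * (ω * P x) + x * Q x)
    (h2' : ∀ x : ℕ, ((x:ℤ)+1) * R' (x+1) = (2*x+1) * (ω * P' x) + x * Q' x)
    (h3 : ∀ x : ℕ, ((x:ℤ)+2)^3 * P (x+2) = (x+2) * R (x+2) + (2*x+3) * R (x+1) + ((x:ℤ)+1)^3 * P x)
    (h3' : ∀ x : ℕ, ((x:ℤ)+2)^3 * P' (x+2) = (x+2) * R' (x+2) + (2*x+3) * R' (x+1) + ((x:ℤ)+1)^3 * P' x)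
    (h4 : P 1 = R 1 + R 0) (h4' : P' 1 = R' 1 + R' 0) :
    ∀ x, P x = P' x ∧ Q x = Q' x ∧ R x = R' x := by
  have stepQ : ∀ x, P x = P' x → R x = R' x → Q (x+1) = Q' (x+1) := by
    intro x hp hr; rw [h1, h1', hp, hr]
  have stepR : ∀ x, P x = P' x → Q x = Q' x → R (x+1) = R' (x+1) := by
    intro x hp hq
    have hx : ((x:ℤ)+1) ≠ 0 := by positivity
    apply mul_left_cancel₀ hx
    rw [h2, h2', hp, hq]
  intro x
  induction x using Nat.strong_induction_on with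
  | _ x ih =>
    rcases x with _ | _ | x
    · exact ⟨hP0, hQ0, hR0⟩
    · have hR1 := stepR 0 hP0 hQ0
      refine ⟨?_, stepQ 0 hP0 hR0, hR1⟩
      rw [h4, h4', hR0, hR1]
    · obtain ⟨p0, q0, r0⟩ := ih x (by omega)
      obtain ⟨p1, q1, r1⟩ := ih (x+1) (by omega)
      have hR2 := stepR (x+1) p1 q1
      refine ⟨?_, stepQ (x+1) p1 r1, hR2⟩
      have hx : ((x:ℤ)+2)^3 ≠ 0 := by positivity
      apply mul_left_cancel₀ hx
      rw [h3, h3', hR2, r1, p0]

def Qa (n : ℕ) : ℕ → ℤ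
  | 0 => 0
  | (x+1) => ((x:ℤ)+1) * (2*n+1) * (dd n (x+1) * ss n x)

def Ra (n : ℕ) : ℕ → ℤ
  | 0 => 0
  | (x+1) => ((x:ℤ)+1) * (2*n+1) * (dd n x * ss n (x+1))

open Ser in
lemma cc_W_succ (k : ℕ) : PowerSeries.constantCoeff (W (k+1)) = 0 := by
  unfold W; simp

open Ser in
lemma cc_pp_succ (k m : ℕ) : PowerSeries.constantCoeff (pp (k+1) m) = 0 := by
  unfold pp; rw [map_mul, cc_W_succ, zero_mul]

open Ser in
lemma cc_pp_zero (m : ℕ) : pp 0 (m+1) = 0 := by
  unfold pp Nw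
  rw [sum_range_one]
  simp

open Ser in
lemma e_zero_zero : e 0 0 = 1 := by
  unfold e pp Nw W
  rw [sum_range_one]
  simp [nn_zero, U]

open Ser in
lemma e_succ_zero (k : ℕ) : e (k+1) 0 = 0 := by
  unfold e
  rw [PowerSeries.coeff_zero_eq_constantCoeff_apply, cc_pp_succ]

open Ser in
lemma cr_zero (k : ℕ) : cr k 0 = 0 := by
  have h := congrArg PowerSeries.constantCoeff (Rr k)
  unfold cr
  rw [PowerSeries.coeff_zero_eq_constantCoeff_apply]
  rcases k with _ | k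
  · rw [cc_pp_zero 0, cc_pp_zero 1] at h
    simpa using h
  · simp only [map_mul, map_add, map_sub, cc_pp_succ, mul_zero, add_zero, map_one, map_pow,
      PowerSeries.constantCoeff_X] at h
    simpa using h

open Ser in
lemma cq_zero (k : ℕ) : cq k 0 = 0 := by
  unfold cq qq
  rw [PowerSeries.coeff_zero_X_mul]

open Ser in
/-- **the expansion** `d_n(x) s_n(x) = ∑_k binom(n,k) binom(n+k,k) e_k(x)` -/
theorem star (n x : ℕ) : dd n x * ss n x = ∑ k ∈ range (n+1), b n k * e k x := by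
  have hM : ∀ x, ∑ k ∈ range (n+1), b n k * cm k x = (2*(n:ℤ)+1)^2 * ∑ k ∈ range (n+1), b n k * e k x := by
    intro x
    rw [sum_range_succ', mul_sum]
    have e1 : ∑ k ∈ range n, b n (k+1) * cm (k+1) x
        = ∑ k ∈ range n, b n (k+1) * ((2*((k:ℤ)+1)+1)^2 * e (k+1) x)
          + ∑ k ∈ range n, 4*(((n:ℤ)*(n+1) - k*(k+1)) * b n k) * e k x := by
      rw [← sum_add_distrib]
      refine sum_congr rfl (fun k _ => ?_)
      rw [cm_succ]
      linear_combination (4 * e k x) * b_rec n k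
    have e2 : ∑ k ∈ range n, b n (k+1) * ((2*((k:ℤ)+1)+1)^2 * e (k+1) x) + b n 0 * e 0 x
        = ∑ k ∈ range (n+1), b n k * ((2*(k:ℤ)+1)^2 * e k x) := by
      rw [sum_range_succ']; push_cast; ring
    have e3 : ∑ k ∈ range n, 4*(((n:ℤ)*(n+1) - k*(k+1)) * b n k) * e k x
        = ∑ k ∈ range (n+1), 4*(((n:ℤ)*(n+1) - k*(k+1)) * b n k) * e k x := by
      rw [sum_range_succ]; ring
    rw [e1, cm_zero, e3]
    have e4 : ∑ k ∈ range (n+1), (2*(n:ℤ)+1)^2 * (b n k * e k x)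
        = ∑ k ∈ range (n+1), b n k * ((2*(k:ℤ)+1)^2 * e k x)
          + ∑ k ∈ range (n+1), 4*(((n:ℤ)*(n+1) - k*(k+1)) * b n k) * e k x := by
      rw [← sum_add_distrib]
      exact sum_congr rfl (fun k _ => by ring)
    rw [e4, ← e2]; ring
  have h := unique (ω := (2*(n:ℤ)+1)^2) (P := fun x => dd n x * ss n x) (Q := Qa n) (R := Ra n)
    (P' := fun x => ∑ k ∈ range (n+1), b n k * e k x)
    (Q' := fun x => ∑ k ∈ range (n+1), b n k * cq k x)
    (R' := fun x => ∑ k ∈ range (n+1), b n k * cr k x)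
    (by
      show _
      rw [dd_zero, ss_zero, sum_range_succ', sum_eq_zero]
      · rw [e_zero_zero, b_zero]; ring
      · intro k _; rw [e_succ_zero, mul_zero])
    (by
      show _
      rw [sum_eq_zero]
      · rfl
      · intro k _; rw [cq_zero, mul_zero])
    (by
      show _
      rw [sum_eq_zero]
      · rfl
      · intro k _; rw [cr_zero, mul_zero])
    (by
      intro x
      rcases x with _ | x
      · simp [Qa, Ra, dd_zero, ss_zero, dd_one]; ring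
      · have := dd_rec n x
        simp only [Qa, Ra]
        push_cast
        linear_combination ((2*(n:ℤ)+1)*ss n (x+1)) * this)
    (by
      intro x
      show _
      rw [← hM, ← sum_add_distrib]
      refine sum_congr rfl (fun k _ => ?_)
      rw [c1]; ring)
    (by
      intro x
      rcases x with _ | x
      · simp [Qa, Ra, dd_zero, ss_zero, ss_one]; ring
      · have := ss_rec n x
        simp only [Qa, Ra]
        push_cast
        linear_combination ((2*(n:ℤ)+1)*dd n (x+1)) * this)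
    (by
      intro x
      show _
      rw [← hM, mul_sum, mul_sum, mul_sum, ← sum_add_distrib]
      refine sum_congr rfl (fun k _ => ?_)
      linear_combination (b n k) * c2 k x)
    (by
      intro x
      have h1 := dd_rec n x
      have h2 := ss_rec n x
      simp only [Ra]
      push_cast
      linear_combination ((x:ℤ)+2)^2 * ss n (x+2) * h1 + (((x:ℤ)+1)*dd n x) * h2)
    (by
      intro x
      show _
      rw [mul_sum, mul_sum, mul_sum, mul_sum, ← sum_add_distrib, ← sum_add_distrib]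
      refine sum_congr rfl (fun k _ => ?_)
      linear_combination (b n k) * c3 k x)
    (by simp [Ra, dd_zero, ss_zero, dd_one, ss_one])
    (by
      show _
      rw [← sum_add_distrib]
      refine sum_congr rfl (fun k _ => ?_)
      linear_combination (b n k) * c3' k)
  exact (h x).1

end Pool.Agent.V11307.Lin
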