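import Mathlib
import Pool.Agent.V11307.Lin.Star
import Pool.Agent.V11307.Lin.Sq

set_option autoImplicit false

namespace Pool.Agent.V11307.Lin

open Finset

/-- functions with an integral expansion in the `b_k` -/
def InR (f : ℕ → ℤ) : Prop := ∃ e : ℕ → ℤ, ∀ n, f n = ∑ k ∈ range (n+1), b n k * e k

lemma expand_K {f : ℕ → ℤ} {e : ℕ → ℤ} (he : ∀ n, f n = ∑ k ∈ range (n+1), b n k * e k) {n K : ℕ} (h : n < K) :
    f n = ∑ k ∈ range K, b n k * e k := by
  rw [he]
  refine sum_subset (range_mono (by omega)) (fun l _ hl => ?_)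
  rw [mem_range, not_lt] at hl
  rw [b_zero_of_lt (by omega), zero_mul]

lemma InR.one : InR (fun _ => 1) := by
  refine ⟨fun k => if k = 0 then 1 else 0, fun n => ?_⟩
  rw [sum_range_succ', sum_eq_zero]
  · simp [b_zero]
  · intro k _; simp

lemma InR.mul {f g : ℕ → ℤ} (hf : InR f) (hg : InR g) : InR (fun n => f n * g n) := by
  obtain ⟨e, he⟩ := hf
  obtain ⟨e', he'⟩ := hg
  refine ⟨fun l => ∑ i ∈ range (l+1), ∑ j ∈ range (l+1), C i j l * (e i * e' j), fun n => ?_⟩
  beta_reduce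
  rw [he n, he' n, sum_mul_sum]
  have h1 : ∑ i ∈ range (n+1), ∑ j ∈ range (n+1), b n i * e i * (b n j * e' j)
      = ∑ i ∈ range (n+1), ∑ j ∈ range (n+1), ∑ l ∈ range (n+1), b n l * (C i j l * (e i * e' j)) := by
    refine sum_congr rfl (fun i _ => sum_congr rfl (fun j _ => ?_))
    have : b n i * e i * (b n j * e' j) = (b n i * b n j) * (e i * e' j) := by ring
    rw [this, b_mul_lt n i j (n+1) (by omega), sum_mul]
    exact sum_congr rfl (fun l _ => by ring)
  rw [h1]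
  have h2 : ∑ i ∈ range (n+1), ∑ j ∈ range (n+1), ∑ l ∈ range (n+1), b n l * (C i j l * (e i * e' j))
      = ∑ l ∈ range (n+1), b n l * ∑ i ∈ range (n+1), ∑ j ∈ range (n+1), (C i j l * (e i * e' j)) := by
    rw [sum_congr rfl (fun i _ => sum_comm), sum_comm]
    refine sum_congr rfl (fun l _ => ?_)
    rw [mul_sum]
    exact sum_congr rfl (fun i _ => by rw [mul_sum])
  rw [h2]
  refine sum_congr rfl (fun l hl => ?_)
  rw [mem_range] at hl
  congr 1
  have hz : ∀ i j, (l < i ∨ l < j) → C i j l * (e i * e' j) = 0 := by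
    rintro i j (h | h)
    · unfold C; rw [Nat.choose_eq_zero_of_lt h]; simp
    · unfold C; rw [Nat.choose_eq_zero_of_lt h]; simp
  symm
  rw [← sum_subset (range_mono (show l+1 ≤ n+1 by omega)) (fun i _ hi => ?_)]
  · refine sum_congr rfl (fun i _ => ?_)
    refine sum_subset (range_mono (show l+1 ≤ n+1 by omega)) (fun j _ hj => ?_)
    rw [mem_range, not_lt] at hj
    exact hz i j (Or.inr (by omega))
  · rw [mem_range, not_lt] at hi
    exact sum_eq_zero (fun j _ => hz i j (Or.inl (by omega)))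

lemma InR.pow {f : ℕ → ℤ} (hf : InR f) (m : ℕ) : InR (fun n => f n ^ m) := by
  induction m with
  | zero => simpa using InR.one
  | succ m ih =>
    have := ih.mul hf
    simpa [pow_succ] using this

lemma InR.sum_plain {f : ℕ → ℤ} (hf : InR f) (n : ℕ) : (n:ℤ) ∣ ∑ k ∈ range n, (2*(k:ℤ)+1) * f k := by
  obtain ⟨e, he⟩ := hf
  have h1 : ∑ k ∈ range n, (2*(k:ℤ)+1) * f k
      = ∑ l ∈ range n, e l * ∑ k ∈ range n, (2*(k:ℤ)+1) * b k l := by
    have h2 : ∀ k ∈ range n, (2*(k:ℤ)+1) * f k = ∑ l ∈ range n, e l * ((2*(k:ℤ)+1) * b k l) := by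
      intro k hk
      rw [mem_range] at hk
      rw [expand_K he hk, mul_sum]
      exact sum_congr rfl (fun l _ => by ring)
    rw [sum_congr rfl h2, sum_comm]
    exact sum_congr rfl (fun l _ => by rw [mul_sum])
  rw [h1]
  refine dvd_sum (fun l _ => ?_)
  rw [Lin.sum_plain]
  exact ⟨e l * ((n.choose (l+1) : ℤ) * ((n+l).choose l : ℤ)), by ring⟩

lemma InR.sum_alt {f : ℕ → ℤ} (hf : InR f) (n : ℕ) : (n:ℤ) ∣ ∑ k ∈ range n, (-1:ℤ)^k * (2*(k:ℤ)+1) * f k := by
  obtain ⟨e, he⟩ := hf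
  rcases n with _ | M
  · simp
  have h1 : ∑ k ∈ range (M+1), (-1:ℤ)^k * (2*(k:ℤ)+1) * f k
      = ∑ l ∈ range (M+1), e l * ∑ k ∈ range (M+1), (-1:ℤ)^k * (2*(k:ℤ)+1) * b k l := by
    have h2 : ∀ k ∈ range (M+1), (-1:ℤ)^k * (2*(k:ℤ)+1) * f k
        = ∑ l ∈ range (M+1), e l * ((-1:ℤ)^k * (2*(k:ℤ)+1) * b k l) := by
      intro k hk
      rw [mem_range] at hk
      rw [expand_K he hk, mul_sum]
      exact sum_congr rfl (fun l _ => by ring)
    rw [sum_congr rfl h2, sum_comm]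
    exact sum_congr rfl (fun l _ => by rw [mul_sum])
  rw [h1]
  refine dvd_sum (fun l _ => ?_)
  rw [Lin.sum_alt]
  exact ⟨e l * ((-1)^M * (M.choose l : ℤ) * ((M+1+l).choose l : ℤ)), by push_cast; ring⟩

lemma InR.ds (x : ℕ) : InR (fun n => dd n x * ss n x) := ⟨fun k => Ser.e k x, fun n => star n x⟩

/-! ### negative arguments -/

def gg (n x : ℕ) : ℤ := ∑ j ∈ range (n+1), (n.choose j : ℤ) * ((-2)^j * ((x+j).choose j : ℤ))

lemma gg_zero (n : ℕ) : gg n 0 = (-1)^n := by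
  unfold gg
  have h := add_pow (-2:ℤ) 1 n
  rw [show (-2:ℤ)+1 = -1 by norm_num] at h
  rw [h]
  refine sum_congr rfl (fun j _ => ?_)
  simp; ring

lemma gg_one (n : ℕ) : gg n 1 = (2*n+1) * (-1)^n := by
  rw [← gg_zero]
  unfold gg
  have h := weight n (fun j => (-2)^j * ((0+j).choose j : ℤ))
  rw [h]
  refine sum_congr rfl (fun j _ => ?_)
  rcases j with _ | m
  · simp
  · have h1 : (((1+(m+1)).choose (m+1) : ℕ):ℤ) = (m:ℤ)+2 := by
      rw [show 1+(m+1) = (m+1)+1 by ring, Nat.choose_succ_self_right]; push_cast; ring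
    rw [h1, show m+1-1 = m by omega]
    simp only [zero_add, Nat.choose_self]
    push_cast; ring

lemma gg_rec (n x : ℕ) : ((x:ℤ)+2) * gg n (x+2) = (2*n+1) * gg n (x+1) + ((x:ℤ)+1) * gg n x := by
  unfold gg
  rw [weight n (fun j => (-2)^j * (((x+1+j).choose j : ℕ) : ℤ)), mul_sum, mul_sum, ← sum_add_distrib]
  refine sum_congr rfl (fun j _ => ?_)
  rcases j with _ | m
  · simp; ring
  · have h1 := succ_choose_eq (x+m+1) m
    have h2 := top_succ (x+m+1) m
    have h3 : (((x+m+2).choose (m+1) : ℕ):ℤ) = ((x+m+1).choose m : ℤ) + ((x+m+1).choose (m+1) : ℤ) := by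
      rw [Nat.choose_succ_succ']; push_cast; ring
    have h4 : (((x+m+3).choose (m+1) : ℕ):ℤ) = ((x+m+2).choose m : ℤ) + ((x+m+2).choose (m+1) : ℤ) := by
      rw [Nat.choose_succ_succ']; push_cast; ring
    rw [show x+2+(m+1) = x+m+3 by ring, show x+1+(m+1) = x+m+2 by ring, show x+(m+1) = x+m+1 by ring,
      show m+1-1 = m by omega, show x+1+m = x+m+1 by ring, h4, h3]
    rw [show x+m+1+1 = x+m+2 by ring] at h2
    push_cast at h1 h2 ⊢
    rw [pow_succ]
    generalize (((x+m+1).choose m : ℕ):ℤ) = A at *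
    generalize (((x+m+1).choose (m+1) : ℕ):ℤ) = B' at *
    generalize (((x+m+2).choose m : ℕ):ℤ) = D at *
    linear_combination ((n.choose (m+1) : ℤ) * ((-2)^m*(-2))) * h2 - (2*(n.choose (m+1) : ℤ) * ((-2)^m*(-2))) * h1

lemma gg_eq (n : ℕ) : ∀ x, gg n x = (-1)^n * dd n x := by
  intro x
  induction x using Nat.strong_induction_on with
  | _ x ih =>
    rcases x with _ | _ | x
    · rw [gg_zero, dd_zero]; ring
    · rw [gg_one, dd_one]; ring
    · have h0 := ih x (by omega)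
      have h1 := ih (x+1) (by omega)
      have hx : ((x:ℤ)+2) ≠ 0 := by positivity
      apply mul_left_cancel₀ hx
      rw [gg_rec, h0, h1]
      linear_combination (-(-1:ℤ)^n) * dd_rec n x

end Pool.Agent.V11307.Lin
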