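import Mathlib
import Pool.Agent.V11307.Lin.Sq

set_option autoImplicit false

namespace Pool.Agent.V11307.Lin

open Finset

lemma cb_succ (k : ℕ) : ((k:ℤ)+1) * cb (k+1) = 2*(2*k+1) * cb k := by
  have := Nat.succ_mul_centralBinom_succ k
  have h2 : (((k+1) * (k+1).centralBinom : ℕ) : ℤ) = ((2 * (2*k+1) * k.centralBinom : ℕ) : ℤ) := by rw [this]
  simp only [Nat.centralBinom_eq_two_mul_choose] at h2
  unfold cb
  push_cast at h2 ⊢
  linear_combination h2

/-! ### first sum: `∑ cb_k^2 binom(k,s-k) (-4)^{s-k}` -/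

def f (k j : ℕ) : ℤ := cb k^2 * (k.choose j : ℤ) * (-4)^j

def F (s k : ℕ) : ℤ := if k ≤ s then f k (s-k) else 0

def A (s : ℕ) : ℤ := ∑ k ∈ range (s+1), f k (s-k)

lemma A_eq (s K : ℕ) (h : s < K) : A s = ∑ k ∈ range K, F s k := by
  unfold A
  have h1 : ∑ k ∈ range (s+1), f k (s-k) = ∑ k ∈ range (s+1), F s k := by
    refine sum_congr rfl (fun k hk => ?_)
    rw [mem_range] at hk
    unfold F; rw [if_pos (by omega)]
  rw [h1]
  refine sum_subset (range_mono (by omega)) (fun k _ hk => ?_)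
  rw [mem_range, not_lt] at hk
  unfold F; rw [if_neg (by omega)]

lemma f_tel (k j : ℕ) : ((k:ℤ)+j+2)^2 * f k (j+2) - 4*(3*((k:ℤ)+j+1)^2+3*((k:ℤ)+j+1)+1) * f k (j+1)
      + 32*((k:ℤ)+j+1)^2 * f k j
    = -((k:ℤ)+j+2)*((k:ℤ)+1) * f (k+1) (j+1) + ((k:ℤ)+j+2)*(k:ℤ) * f k (j+2) := by
  have hk : ((k:ℤ)+1) ≠ 0 := by positivity
  apply mul_left_cancel₀ hk
  have h1 := succ_choose_eq k j
  have h2 := succ_choose_eq k (j+1)
  have hc := cb_succ k
  have h3 : (((k+1).choose (j+1) : ℕ):ℤ) = (k.choose j : ℤ) + (k.choose (j+1) : ℤ) := by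
    rw [Nat.choose_succ_succ']; push_cast; ring
  unfold f
  rw [h3, show (-4:ℤ)^(j+2) = 16 * (-4)^j by ring, show (-4:ℤ)^(j+1) = -4 * (-4)^j by ring]
  push_cast at h1 h2 ⊢
  generalize ((k.choose j : ℕ):ℤ) = c0 at *
  generalize ((k.choose (j+1) : ℕ):ℤ) = c1 at *
  generalize ((k.choose (j+2) : ℕ):ℤ) = c2 at *
  generalize cb (k+1) = u' at *
  generalize cb k = u at *
  generalize (-4:ℤ)^j = e at *
  linear_combination (16*((k:ℤ)+j+2)*((k:ℤ)+1)*u^2*e) * h2
    + (16*(2*(k:ℤ)^2+2*k*j+6*k+2*j+3)*u^2*e) * h1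
    - (4*((k:ℤ)+j+2)*(c0+c1)*e*(((k:ℤ)+1)*u' + 2*(2*k+1)*u)) * hc

lemma A_rec (s : ℕ) : ((s:ℤ)+2)^2 * A (s+2) = 4*(3*((s:ℤ)+1)^2+3*((s:ℤ)+1)+1) * A (s+1) - 32*((s:ℤ)+1)^2 * A s := by
  rw [A_eq (s+2) (s+3) (by omega), A_eq (s+1) (s+3) (by omega), A_eq s (s+3) (by omega)]
  have key : ∀ K, ∑ k ∈ range K, (((s:ℤ)+2)^2 * F (s+2) k - 4*(3*((s:ℤ)+1)^2+3*((s:ℤ)+1)+1) * F (s+1) k
      + 32*((s:ℤ)+1)^2 * F s k) = -((s:ℤ)+2)*(K:ℤ)*F (s+2) K := by
    intro K
    induction K with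
    | zero => simp
    | succ K ih =>
      rw [sum_range_succ, ih]
      rcases le_or_gt K s with h | h
      · obtain ⟨j, rfl⟩ := Nat.exists_eq_add_of_le h
        unfold F
        rw [if_pos (by omega), if_pos (by omega), if_pos (by omega), if_pos (by omega)]
        rw [show K + j + 2 - K = j+2 by omega, show K+j+1-K = j+1 by omega, show K+j-K = j by omega,
          show K+j+2-(K+1) = j+1 by omega]
        have := f_tel K j
        push_cast
        linear_combination this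
      · rcases Nat.lt_or_ge (s+1) K with h' | h'
        · rcases Nat.lt_or_ge (s+2) K with h'' | h''
          · unfold F
            rw [if_neg (by omega), if_neg (by omega), if_neg (by omega), if_neg (by omega)]; ring
          · obtain rfl : K = s+2 := by omega
            unfold F
            rw [if_pos (by omega), if_neg (by omega), if_neg (by omega), if_neg (by omega)]
            push_cast; ring
        · obtain rfl : K = s+1 := by omega
          unfold F
          rw [if_pos (by omega), if_pos (by omega), if_neg (by omega), if_pos (by omega)]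
          rw [show s+2-(s+1) = 1 by omega, show s+1-(s+1) = 0 by omega, show s+2-(s+1+1) = 0 by omega]
          have hc := cb_succ (s+1)
          unfold f
          push_cast at hc ⊢
          simp only [Nat.choose_zero_right, Nat.choose_one_right]
          push_cast
          rw [show s+1+1 = s+2 by ring] at hc ⊢
          have hk : ((s:ℤ)+2) ≠ 0 := by positivity
          apply mul_left_cancel₀ hk
          linear_combination (((s:ℤ)+2)*(((s:ℤ)+2)*cb (s+2) + 2*(2*(s+1)+1)*cb (s+1))) * hc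
  have := key (s+3)
  rw [sum_add_distrib, sum_sub_distrib, ← mul_sum, ← mul_sum, ← mul_sum] at this
  have hF : F (s+2) (s+3) = 0 := by unfold F; rw [if_neg (by omega)]
  rw [hF] at this
  linear_combination this

/-! ### second sum: `∑ cb_i cb_{s-i} binom(s,i)` -/

def FQ (s i : ℕ) : ℚ := if i ≤ s then (cb i : ℚ) * (cb (s-i) : ℚ) * (s.choose i : ℚ) else 0

def B (s : ℕ) : ℤ := ∑ i ∈ range (s+1), cb i * cb (s-i) * (s.choose i : ℤ)

lemma B_eq (s K : ℕ) (h : s < K) : (B s : ℚ) = ∑ k ∈ range K, FQ s k := by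
  unfold B
  have h1 : ((∑ i ∈ range (s+1), cb i * cb (s-i) * (s.choose i : ℤ) : ℤ) : ℚ) = ∑ k ∈ range (s+1), FQ s k := by
    push_cast
    refine sum_congr rfl (fun k hk => ?_)
    rw [mem_range] at hk
    unfold FQ; rw [if_pos (by omega)]
  rw [h1]
  refine sum_subset (range_mono (by omega)) (fun k _ hk => ?_)
  rw [mem_range, not_lt] at hk
  unfold FQ; rw [if_neg (by omega)]

lemma cb_succQ (k : ℕ) : (cb (k+1) : ℚ) = 2*(2*k+1)/((k:ℚ)+1) * cb k := by
  have h := cb_succ k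
  have h2 : (((k:ℤ)+1) * cb (k+1) : ℚ) = (2*(2*k+1) * cb k : ℚ) := by exact_mod_cast h
  have hk : ((k:ℚ)+1) ≠ 0 := by positivity
  field_simp
  push_cast at h2
  linear_combination h2

lemma choose_up (i j : ℕ) : (((i+j+1).choose i : ℕ) : ℚ) = ((i:ℚ)+j+1)/((j:ℚ)+1) * ((i+j).choose i : ℚ) := by
  have h := top_succ (i+j) i
  have h2 : ((((i+j:ℕ):ℤ)+1-i) * ((i+j+1).choose i : ℤ) : ℚ) = ((((i+j:ℕ):ℤ)+1) * ((i+j).choose i : ℤ) : ℚ) := by exact_mod_cast h
  have hk : ((j:ℚ)+1) ≠ 0 := by positivity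
  push_cast at h2
  field_simp
  linear_combination h2

lemma choose_up2 (i j : ℕ) : (((i+j+2).choose (i+1) : ℕ) : ℚ) = ((i:ℚ)+j+2)/((i:ℚ)+1) * ((i+j+1).choose i : ℚ) := by
  have h := Nat.add_one_mul_choose_eq (i+j+1) i
  have h2 : ((((i+j+1+1) * (i+j+1).choose i : ℕ)) : ℚ) = (((i+j+2).choose (i+1) * (i+1) : ℕ) : ℚ) := by rw [h]
  have hk : ((i:ℚ)+1) ≠ 0 := by positivity
  push_cast at h2
  field_simp
  linear_combination -h2

lemma f0_tel (i j : ℕ) :
    ((i:ℚ)+j+2)^2 * (cb i * cb (j+2) * ((i+j+2).choose i : ℚ))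
      - 4*(3*((i:ℚ)+j+1)^2+3*((i:ℚ)+j+1)+1) * (cb i * cb (j+1) * ((i+j+1).choose i : ℚ))
      + 32*((i:ℚ)+j+1)^2 * (cb i * cb j * ((i+j).choose i : ℚ))
    = -((i:ℚ)+1)^2*(((i:ℚ)+j+1)*(2*j+1)-1)/((2*(j:ℚ)+1)*((i:ℚ)+j+2)) * (cb (i+1) * cb (j+1) * ((i+j+2).choose (i+1) : ℚ))
      + (i:ℚ)^2*(((i:ℚ)+j+1)*(2*j+3)-1)/((2*(j:ℚ)+3)*((i:ℚ)+j+2)) * (cb i * cb (j+2) * ((i+j+2).choose i : ℚ)) := by
  have e1 := choose_up i j
  have e2 := choose_up i (j+1)
  have e3 := choose_up2 i j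
  rw [show i + (j+1) + 1 = i+j+2 by ring, show i+(j+1) = i+j+1 by ring] at e2
  have c1 := cb_succQ j
  have c2 := cb_succQ (j+1)
  have c3 := cb_succQ i
  rw [show j+1+1 = j+2 by ring] at c2
  rw [e3, e2, e1, c2, c1, c3]
  push_cast
  have h1 : ((i:ℚ)+1) ≠ 0 := by positivity
  have h2 : ((j:ℚ)+1) ≠ 0 := by positivity
  have h3 : ((j:ℚ)+1+1) ≠ 0 := by positivity
  have h4 : (2*(j:ℚ)+1) ≠ 0 := by positivity
  have h5 : (2*(j:ℚ)+3) ≠ 0 := by positivity
  have h6 : ((i:ℚ)+j+2) ≠ 0 := by positivity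
  field_simp
  ring

lemma B_rec (s : ℕ) : ((s:ℤ)+2)^2 * B (s+2) = 4*(3*((s:ℤ)+1)^2+3*((s:ℤ)+1)+1) * B (s+1) - 32*((s:ℤ)+1)^2 * B s := by
  have key : ∀ K : ℕ, ∑ k ∈ range K, (((s:ℚ)+2)^2 * FQ (s+2) k - 4*(3*((s:ℚ)+1)^2+3*((s:ℚ)+1)+1) * FQ (s+1) k
      + 32*((s:ℚ)+1)^2 * FQ s k)
      = -(K:ℚ)^2*(((s:ℚ)+1)*(2*s+3-2*K)-1)/((2*(s:ℚ)+3-2*K)*((s:ℚ)+2)) * FQ (s+2) K := by
    intro K
    induction K with
    | zero => simp
    | succ K ih =>
      rw [sum_range_succ, ih]
      rcases le_or_gt K s with h | h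
      · obtain ⟨j, rfl⟩ := Nat.exists_eq_add_of_le h
        unfold FQ
        rw [if_pos (by omega), if_pos (by omega), if_pos (by omega), if_pos (by omega)]
        rw [show K + j + 2 - K = j+2 by omega, show K+j+1-K = j+1 by omega, show K+j-K = j by omega,
          show K+j+2-(K+1) = j+1 by omega]
        have := f0_tel K j
        push_cast
        rw [show 2*((K:ℚ)+j)+3-2*K = 2*j+3 by ring, show 2*((K:ℚ)+j)+3-2*(K+1) = 2*j+1 by ring]
        linear_combination this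
      · rcases Nat.lt_or_ge (s+1) K with h' | h'
        · rcases Nat.lt_or_ge (s+2) K with h'' | h''
          · unfold FQ
            rw [if_neg (by omega), if_neg (by omega), if_neg (by omega), if_neg (by omega)]; ring
          · obtain rfl : K = s+2 := by omega
            unfold FQ
            rw [if_pos (by omega), if_neg (by omega), if_neg (by omega), if_neg (by omega)]
            push_cast
            rw [show 2*(s:ℚ)+3-2*(s+2) = -1 by ring]
            have : ((s:ℚ)+2) ≠ 0 := by positivity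
            field_simp
            ring
        · obtain rfl : K = s+1 := by omega
          unfold FQ
          rw [if_pos (by omega), if_pos (by omega), if_neg (by omega), if_pos (by omega)]
          rw [show s+2-(s+1) = 1 by omega, show s+1-(s+1) = 0 by omega, show s+2-(s+1+1) = 0 by omega]
          have hc := cb_succQ (s+1)
          have c1 : (cb 1 : ℚ) = 2 := by norm_num [cb, Nat.choose]
          have c0 : (cb 0 : ℚ) = 1 := by norm_num [cb]
          rw [show s+1+1 = s+2 by ring] at hc ⊢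
          rw [Nat.choose_self, Nat.choose_self, show s+2 = (s+1)+1 by ring, Nat.choose_succ_self_right,
            show (s+1)+1 = s+2 by ring, hc, c1, c0]
          push_cast
          have h1 : ((s:ℚ)+2) ≠ 0 := by positivity
          have h2 : ((s:ℚ)+1+1) ≠ 0 := by positivity
          rw [show 2*(s:ℚ)+3-2*(s+1) = 1 by ring, show 2*(s:ℚ)+3-2*(s+2) = -1 by ring]
          field_simp
          ring
  have := key (s+3)
  rw [sum_add_distrib, sum_sub_distrib, ← mul_sum, ← mul_sum, ← mul_sum] at this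
  have hF : FQ (s+2) (s+3) = 0 := by unfold FQ; rw [if_neg (by omega)]
  rw [hF, mul_zero, ← B_eq (s+2) (s+3) (by omega), ← B_eq (s+1) (s+3) (by omega), ← B_eq s (s+3) (by omega)] at this
  have h2 : (((s:ℚ)+2)^2 * B (s+2)) = 4*(3*((s:ℚ)+1)^2+3*((s:ℚ)+1)+1) * B (s+1) - 32*((s:ℚ)+1)^2 * B s := by
    linear_combination this
  exact_mod_cast h2

theorem A_eq_B (s : ℕ) : A s = B s := by
  induction s using Nat.strong_induction_on with
  | _ s ih =>
    rcases s with _ | _ | s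
    · norm_num [A, B, f, cb]
    · norm_num [A, B, f, cb, sum_range_succ, Nat.choose]
    · have h0 := ih s (by omega)
      have h1 := ih (s+1) (by omega)
      have hs : ((s:ℤ)+2)^2 ≠ 0 := by positivity
      apply mul_left_cancel₀ hs
      rw [A_rec, B_rec, h0, h1]

end Pool.Agent.V11307.Lin
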