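import Mathlib
import Pool.Agent.V11307.Lin.IdS

set_option autoImplicit false

namespace Pool.Agent.V11307.Lin

open Finset

lemma D4 (k K : ℕ) (x : ℤ) (h : k < K) :
    Dl k x ^ 4 = ∑ i ∈ range K, ∑ j ∈ range K, (cb i * (x*(x+1))^i) * (cb j * (x*(x+1))^j) *
      ∑ l ∈ range K, C i j l * b k l := by
  have e : Dl k x ^ 4 = Dl k x ^ 2 * Dl k x ^ 2 := by ring
  rw [e, D_sq k K x h, sum_mul_sum]
  refine sum_congr rfl (fun i _ => sum_congr rfl (fun j _ => ?_))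
  rw [← b_mul_lt k i j K h]; ring

/-- `binom(M,l) binom(M+1+l,l)` -/
def W (M l : ℕ) : ℤ := (M.choose l : ℤ) * ((M+1+l).choose l : ℤ)

lemma S_eq (M : ℕ) (x : ℤ) :
    ∑ k ∈ range (M+1), (-1:ℤ)^k * (2*k+1) * Dl k x ^ 4
      = (-1)^M * (M+1) * ∑ i ∈ range (M+1), ∑ j ∈ range (M+1), (cb i * (x*(x+1))^i) * (cb j * (x*(x+1))^j) *
      ∑ l ∈ range (M+1), C i j l * W M l := by
  have h1 : ∀ k ∈ range (M+1), (-1:ℤ)^k * (2*k+1) * Dl k x ^ 4
      = ∑ i ∈ range (M+1), ∑ j ∈ range (M+1), ∑ l ∈ range (M+1),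
        ((cb i * (x*(x+1))^i) * (cb j * (x*(x+1))^j) * C i j l) * ((-1:ℤ)^k * (2*k+1) * b k l) := by
    intro k hk
    rw [mem_range] at hk
    rw [D4 k (M+1) x hk, mul_sum]
    refine sum_congr rfl (fun i _ => ?_)
    rw [mul_sum]
    refine sum_congr rfl (fun j _ => ?_)
    rw [mul_sum, mul_sum]
    exact sum_congr rfl (fun l _ => by ring)
  rw [sum_congr rfl h1, sum_comm, mul_sum]
  refine sum_congr rfl (fun i _ => ?_)
  rw [sum_comm, mul_sum]
  refine sum_congr rfl (fun j _ => ?_)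
  rw [sum_comm, mul_sum, mul_sum]
  refine sum_congr rfl (fun l _ => ?_)
  rw [← mul_sum, sum_alt]
  unfold W
  ring

lemma W_rec (M l : ℕ) : ((l:ℤ)+1)^2 * W M (l+1) = (((M:ℤ)+1)^2 - ((l:ℤ)+1)^2) * W M l := by
  unfold W
  have h1 := succ_choose_eq M l
  have h2 := choose_add_eq (M+1) l
  rw [show M+1+(l+1) = M+1+l+1 by ring]
  push_cast at h2
  linear_combination (((l:ℤ)+1) * ((M+1+l+1).choose (l+1) : ℤ)) * h1 + ((M:ℤ)-l) * (M.choose l : ℤ) * h2

lemma W_mod {p M : ℕ} (hp : p.Prime) (hM : p = M+1) : ∀ l, l ≤ M → ((p:ℤ)^2) ∣ W M l - (-1)^l := by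
  intro l
  induction l with
  | zero => intro _; simp [W]
  | succ l ih =>
    intro hl
    obtain ⟨c, hc⟩ := ih (by omega)
    have hr := W_rec M l
    have hMp : ((M:ℤ)+1) = p := by rw [hM]; push_cast; ring
    rw [hMp] at hr
    have h1 : ((p:ℤ)^2) ∣ (W M (l+1) - (-1)^(l+1)) * ((l:ℤ)+1)^2 := by
      refine ⟨W M l - ((l:ℤ)+1)^2 * c, ?_⟩
      rw [pow_succ]
      linear_combination hr - ((l:ℤ)+1)^2 * hc
    have hcop : IsCoprime ((p:ℤ)^2) (((l:ℤ)+1)^2) := by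
      apply IsCoprime.pow
      have : Nat.Coprime p (l+1) :=
        (Nat.Prime.coprime_iff_not_dvd hp).mpr (fun hd => absurd (Nat.le_of_dvd (by omega) hd) (by omega))
      exact_mod_cast Nat.isCoprime_iff_coprime.mpr this
    exact hcop.dvd_of_dvd_mul_right h1

/-- the inner alternating sum -/
def Z (p i j : ℕ) : ℤ := ∑ l ∈ range p, C i j l * (-1)^l

lemma Z_small {p i j : ℕ} (h : i + j < p) : Z p i j = (-1)^(i+j) * ((i+j).choose i : ℤ) := by
  unfold Z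
  rw [← alt_C]
  symm
  rw [← sum_subset (range_mono (show i+j+1 ≤ p by omega)) (fun l _ hl => ?_)]
  · exact sum_congr rfl (fun l _ => by ring)
  · rw [mem_range, not_lt] at hl
    rw [C_zero_of_lt (by omega)]; simp

lemma Z_big {p i j : ℕ} (hp : p.Prime) (hj : j < p) (h : p ≤ i + j) : (p:ℤ) ∣ Z p i j := by
  unfold Z
  refine dvd_sum (fun l hl => ?_)
  rw [mem_range] at hl
  apply Dvd.dvd.mul_right
  unfold C
  rcases Nat.lt_or_ge l i with hli | hli
  · rw [Nat.choose_eq_zero_of_lt hli]; simp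
  · apply Dvd.dvd.mul_left
    rcases Nat.lt_or_ge (i+j) l with h1 | h1
    · omega
    · have h2 := hp.dvd_choose_add (a := l) (b := i+j-l) hl (by omega) (by omega)
      rw [show l + (i+j-l) = i+j by omega] at h2
      exact_mod_cast h2

lemma cb_dvd {p i : ℕ} (hp : p.Prime) (hi : i < p) (h : p ≤ 2*i) : (p:ℤ) ∣ cb i := by
  have h2 := hp.dvd_choose_add (a := i) (b := i) hi hi (by omega)
  rw [← two_mul] at h2
  unfold cb
  exact_mod_cast h2

lemma Z_term_big {p i j : ℕ} (hp : p.Prime) (hi : i < p) (hj : j < p) (h : p ≤ i + j) :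
    ((p:ℤ)^2) ∣ cb i * cb j * Z p i j := by
  have hz := Z_big hp hj h
  rw [sq]
  refine mul_dvd_mul ?_ hz
  rcases Nat.lt_or_ge (2*i) p with h1 | h1
  · exact Dvd.dvd.mul_left (cb_dvd hp hj (by omega)) _
  · exact Dvd.dvd.mul_right (cb_dvd hp hi h1) _

/-- the right-hand sum -/
def T (p : ℕ) (x : ℤ) : ℤ := ∑ k ∈ range ((p-1)/2+1), (-1:ℤ)^k * (cb k)^2 * (x^2+x)^k * (2*x+1)^(2*k)

lemma B_side (p : ℕ) (y : ℤ) : ∑ s ∈ range p, (-y)^s * B s
    = ∑ i ∈ range p, ∑ j ∈ range (p-i), (cb i * y^i) * (cb j * y^j) * ((-1)^(i+j) * ((i+j).choose i : ℤ)) := by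
  rw [← Finset.sum_range_diag_flip]
  refine sum_congr rfl (fun s _ => ?_)
  unfold B
  rw [mul_sum]
  refine sum_congr rfl (fun i hi => ?_)
  rw [mem_range] at hi
  rw [show i + (s-i) = s by omega]
  have : (-y)^s = (-1)^s * (y^i * y^(s-i)) := by
    rw [← pow_add, show i + (s-i) = s by omega, neg_pow]
  rw [this]; ring

lemma A_side (p : ℕ) (y : ℤ) : ∑ s ∈ range p, (-y)^s * A s
    = ∑ k ∈ range p, ∑ j ∈ range (p-k), (-y)^(k+j) * f k j := by
  rw [← Finset.sum_range_diag_flip]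
  refine sum_congr rfl (fun s _ => ?_)
  unfold A
  rw [mul_sum]
  refine sum_congr rfl (fun i hi => ?_)
  rw [mem_range] at hi
  rw [show i + (s-i) = s by omega]

lemma T_mod {p : ℕ} (hp : p.Prime) (h2 : p ≠ 2) (x : ℤ) :
    ((p:ℤ)^2) ∣ ∑ s ∈ range p, (-(x*(x+1)))^s * A s - T p x := by
  rw [A_side]
  have hodd := hp.eq_two_or_odd
  have hp2 := hp.two_le
  obtain ⟨h, hh⟩ : ∃ h, p = 2*h+1 := ⟨p/2, by omega⟩
  have hT : T p x = ∑ k ∈ range (h+1), ∑ j ∈ range (p-k), (-(x*(x+1)))^(k+j) * f k j := by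
    unfold T
    rw [show (p-1)/2+1 = h+1 by omega]
    refine sum_congr rfl (fun k hk => ?_)
    rw [mem_range] at hk
    have e1 : ∑ j ∈ range (p-k), (-(x*(x+1)))^(k+j) * f k j = ∑ j ∈ range (k+1), (-(x*(x+1)))^(k+j) * f k j := by
      symm
      refine sum_subset (range_mono (by omega)) (fun l _ hl => ?_)
      rw [mem_range, not_lt] at hl
      unfold f
      rw [Nat.choose_eq_zero_of_lt (by omega)]; simp
    rw [e1]
    have e2 : (2*x+1)^(2*k) = ((4*(x*(x+1))) + 1)^k := by rw [pow_mul]; ring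
    rw [e2, add_pow (4*(x*(x+1))) 1 k, mul_sum]
    refine sum_congr rfl (fun j _ => ?_)
    unfold f
    rw [one_pow, mul_one, pow_add, neg_pow (x*(x+1)) k, show (x^2+x) = x*(x+1) by ring, mul_pow 4]
    have e3 : (-(x*(x+1)))^j * (-4:ℤ)^j = 4^j * (x*(x+1))^j := by
      rw [← mul_pow, ← mul_pow]; ring
    linear_combination (-(-1:ℤ)^k * (x*(x+1))^k * cb k^2 * (k.choose j : ℤ)) * e3
  rw [hT]
  have hs : ∑ k ∈ range p, ∑ j ∈ range (p-k), (-(x*(x+1)))^(k+j) * f k j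
      = ∑ k ∈ range (h+1), ∑ j ∈ range (p-k), (-(x*(x+1)))^(k+j) * f k j
        + ∑ k ∈ range h, ∑ j ∈ range (p-(h+1+k)), (-(x*(x+1)))^((h+1+k)+j) * f (h+1+k) j := by
    conv_lhs => rw [show p = (h+1)+h by omega, sum_range_add]
    rw [show (h+1)+h = p by omega]
  rw [hs, add_sub_cancel_left]
  refine dvd_sum (fun k hk => dvd_sum (fun j _ => ?_))
  rw [mem_range] at hk
  apply Dvd.dvd.mul_left
  unfold f
  apply Dvd.dvd.mul_right
  apply Dvd.dvd.mul_right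
  exact pow_dvd_pow_of_dvd (cb_dvd hp (by omega) (by omega)) 2

theorem main {p : ℕ} (hp : p.Prime) (h2 : p ≠ 2) (x : ℤ) :
    ((p:ℤ)^3) ∣ ∑ k ∈ range p, (-1:ℤ)^k * (2*k+1) * Dl k x ^ 4 - p * T p x := by
  have hp2 := hp.two_le
  have hodd := hp.eq_two_or_odd
  obtain ⟨M, hM⟩ : ∃ M, p = M+1 := ⟨p-1, by omega⟩
  have hMe : (-1:ℤ)^M = 1 := Even.neg_one_pow (by rw [Nat.even_iff]; omega)
  have hS := S_eq M x
  rw [hMe, one_mul] at hS
  have hMp : ((M:ℤ)+1) = p := by rw [hM]; push_cast; ring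
  rw [hMp, ← hM] at hS
  rw [hS]
  -- replace W by sign
  have d1 : ((p:ℤ)^2) ∣ ∑ i ∈ range p, ∑ j ∈ range p, (cb i * (x*(x+1))^i) * (cb j * (x*(x+1))^j) *
      ∑ l ∈ range p, C i j l * W M l
      - ∑ i ∈ range p, ∑ j ∈ range p, (cb i * (x*(x+1))^i) * (cb j * (x*(x+1))^j) * Z p i j := by
    rw [← sum_sub_distrib]
    refine dvd_sum (fun i _ => ?_)
    rw [← sum_sub_distrib]
    refine dvd_sum (fun j _ => ?_)
    rw [← mul_sub]
    apply Dvd.dvd.mul_left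
    unfold Z
    rw [← sum_sub_distrib]
    refine dvd_sum (fun l hl => ?_)
    rw [mem_range] at hl
    rw [← mul_sub]
    exact Dvd.dvd.mul_left (W_mod hp hM l (by omega)) _
  have d2 : ((p:ℤ)^2) ∣ ∑ i ∈ range p, ∑ j ∈ range p, (cb i * (x*(x+1))^i) * (cb j * (x*(x+1))^j) * Z p i j
      - ∑ s ∈ range p, (-(x*(x+1)))^s * B s := by
    rw [B_side, ← sum_sub_distrib]
    refine dvd_sum (fun i hi => ?_)
    rw [mem_range] at hi
    have e1 : ∑ j ∈ range p, (cb i * (x*(x+1))^i) * (cb j * (x*(x+1))^j) * Z p i j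
        = ∑ j ∈ range (p-i), (cb i * (x*(x+1))^i) * (cb j * (x*(x+1))^j) * Z p i j
          + ∑ j ∈ range i, (cb i * (x*(x+1))^i) * (cb (p-i+j) * (x*(x+1))^(p-i+j)) * Z p i (p-i+j) := by
      conv_lhs => rw [show range p = range ((p-i)+i) by rw [show (p-i)+i = p by omega], sum_range_add]
    have e2 : ∑ j ∈ range (p-i), (cb i * (x*(x+1))^i) * (cb j * (x*(x+1))^j) * Z p i j
        = ∑ j ∈ range (p-i), (cb i * (x*(x+1))^i) * (cb j * (x*(x+1))^j) * ((-1)^(i+j) * ((i+j).choose i : ℤ)) := by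
      refine sum_congr rfl (fun j hj => ?_)
      rw [mem_range] at hj
      rw [Z_small (by omega)]
    rw [e1, e2, add_sub_cancel_left]
    refine dvd_sum (fun j hj => ?_)
    rw [mem_range] at hj
    have := Z_term_big hp hi (show p-i+j < p by omega) (by omega)
    have e3 : (cb i * (x*(x+1))^i) * (cb (p-i+j) * (x*(x+1))^(p-i+j)) * Z p i (p-i+j)
        = (cb i * cb (p-i+j) * Z p i (p-i+j)) * ((x*(x+1))^i * (x*(x+1))^(p-i+j)) := by ring
    rw [e3]
    exact Dvd.dvd.mul_right this _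
  have d3 := T_mod hp h2 x
  have e : ∑ s ∈ range p, (-(x*(x+1)))^s * A s = ∑ s ∈ range p, (-(x*(x+1)))^s * B s :=
    sum_congr rfl (fun s _ => by rw [A_eq_B])
  rw [e] at d3
  have d := dvd_add (dvd_add d1 d2) d3
  obtain ⟨c, hc⟩ := d
  refine ⟨c, ?_⟩
  linear_combination (p:ℤ) * hc

end Pool.Agent.V11307.Lin
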